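import Pool.Agent.Helper114_NB.Jordan

set_option autoImplicit false

/-!
# Existence of the Jordan normal form over `ℂ`
-/

namespace Helper114NB

open Polynomial Module

noncomputable section

/-- the vectors `(X - μ) ^ (e - 1 - j)` in the quotient by `(X - μ) ^ e` -/
def qvec (μ : ℂ) (e : ℕ) (j : Fin e) : ℂ[X] ⧸ (Submodule.span ℂ[X] {(X - C μ) ^ e}) :=
  Submodule.Quotient.mk ((X - C μ) ^ (e - 1 - j))

theorem comp_shift (μ : ℂ) (m : ℕ) : ((X - C μ) ^ m).comp (X + C μ) = (X : ℂ[X]) ^ m := by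
  rw [pow_comp, sub_comp, X_comp, C_comp, add_sub_cancel_right]

theorem qvec_linearIndependent (μ : ℂ) (e : ℕ) : LinearIndependent ℂ (qvec μ e) := by
  rw [Fintype.linearIndependent_iff]
  intro c hc j
  have h1 : Submodule.Quotient.mk (p := Submodule.span ℂ[X] {(X - C μ) ^ e})
      (∑ i : Fin e, C (c i) * (X - C μ) ^ (e - 1 - (i : ℕ))) = 0 := by
    rw [← hc, ← Submodule.mkQ_apply, map_sum]
    refine Finset.sum_congr rfl fun i _ => ?_
    rw [← smul_eq_C_mul, Submodule.mkQ_apply]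
    rfl
  rw [Submodule.Quotient.mk_eq_zero, Submodule.mem_span_singleton] at h1
  obtain ⟨b, hb⟩ := h1
  have h2 := congrArg (fun p => p.comp (X + C μ)) hb
  simp only [smul_eq_mul, mul_comp] at h2
  rw [comp_shift, Polynomial.sum_comp] at h2
  have h3 : ∀ i : Fin e, (C (c i) * (X - C μ) ^ (e - 1 - (i : ℕ))).comp (X + C μ) =
      C (c i) * X ^ (e - 1 - (i : ℕ)) := fun i => by rw [mul_comp, C_comp, comp_shift]
  simp only [h3] at h2
  have h4 := congrArg (fun p => p.coeff (e - 1 - (j : ℕ))) h2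
  have hj := j.2
  rw [coeff_mul_X_pow', if_neg (by omega), finsetSum_coeff] at h4
  simp only [coeff_C_mul, coeff_X_pow] at h4
  rw [Finset.sum_eq_single j] at h4
  · rw [if_pos rfl, mul_one] at h4
    exact h4.symm
  · intro i _ hi
    have hi' := i.2
    rw [if_neg, mul_zero]
    intro h
    apply hi
    apply Fin.ext
    omega
  · intro h; exact absurd (Finset.mem_univ _) h

theorem finrank_quot (μ : ℂ) (e : ℕ) :
    Module.finrank ℂ (ℂ[X] ⧸ (Submodule.span ℂ[X] {(X - C μ) ^ e})) = e := by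
  have hm : ((X - C μ) ^ e).Monic := (monic_X_sub_C μ).pow e
  have h := (AdjoinRoot.powerBasis' hm).finrank
  rw [AdjoinRoot.powerBasis'_dim, natDegree_pow, natDegree_X_sub_C, mul_one] at h
  exact h

/-- the basis of the quotient -/
def qbasis (μ : ℂ) (e : ℕ) : Basis (Fin e) ℂ (ℂ[X] ⧸ (Submodule.span ℂ[X] {(X - C μ) ^ e})) :=
  haveI : FiniteDimensional ℂ (ℂ[X] ⧸ (Submodule.span ℂ[X] {(X - C μ) ^ e})) :=
    (AdjoinRoot.powerBasis' ((monic_X_sub_C μ).pow e)).finite
  basisOfLinearIndependentOfCardEqFinrank' (qvec μ e) (qvec_linearIndependent μ e) (by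
    rw [Fintype.card_fin, finrank_quot])

theorem qbasis_apply (μ : ℂ) (e : ℕ) (j : Fin e) : qbasis μ e j = qvec μ e j := by
  unfold qbasis
  have : FiniteDimensional ℂ (ℂ[X] ⧸ (Submodule.span ℂ[X] {(X - C μ) ^ e})) :=
    (AdjoinRoot.powerBasis' ((monic_X_sub_C μ).pow e)).finite
  rw [coe_basisOfLinearIndependentOfCardEqFinrank']

theorem X_smul_qvec (μ : ℂ) (e : ℕ) (j : Fin e) :
    (X : ℂ[X]) • qvec μ e j = μ • qvec μ e j +
      if h : 1 ≤ (j : ℕ) then qvec μ e ⟨j - 1, by omega⟩ else 0 := by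
  have hj := j.2
  unfold qvec
  rw [← Submodule.Quotient.mk_smul, ← Submodule.Quotient.mk_smul]
  have h1 : (X : ℂ[X]) • (X - C μ) ^ (e - 1 - (j : ℕ)) =
      μ • (X - C μ) ^ (e - 1 - (j : ℕ)) + (X - C μ) ^ (e - 1 - (j : ℕ) + 1) := by
    rw [smul_eq_mul, smul_eq_C_mul, pow_succ]
    ring
  rw [h1, Submodule.Quotient.mk_add]
  congr 1
  split_ifs with h
  · have : e - 1 - (j : ℕ) + 1 = e - 1 - ((j : ℕ) - 1) := by omega
    rw [this]
  · have : e - 1 - (j : ℕ) + 1 = e := by omega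
    rw [this, Submodule.Quotient.mk_eq_zero]
    exact Submodule.mem_span_singleton_self _

/-- the action of a linear map on a Jordan basis -/
def IsJordanBasis {V : Type} [AddCommGroup V] [Module ℂ V] (T : V →ₗ[ℂ] V) {I : Type}
    (s : I → ℕ) (μ : I → ℂ) (b : Basis (Σ i, Fin (s i)) ℂ V) : Prop :=
  ∀ i (j : Fin (s i)), T (b ⟨i, j⟩) = μ i • b ⟨i, j⟩ +
    if h : 1 ≤ (j : ℕ) then b ⟨i, ⟨j - 1, by omega⟩⟩ else 0

theorem exists_jordanBasis {V : Type} [AddCommGroup V] [Module ℂ V] [FiniteDimensional ℂ V]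
    (T : V →ₗ[ℂ] V) : ∃ (I : Type) (_ : Fintype I) (s : I → ℕ) (μ : I → ℂ)
      (b : Basis (Σ i, Fin (s i)) ℂ V), IsJordanBasis T s μ b := by
  classical
  have htor : Module.IsTorsion ℂ[X] (Module.AEval' T) :=
    Module.AEval.isTorsion_of_finiteDimensional ℂ V T
  obtain ⟨I, hI, p, hp, e, ⟨E⟩⟩ := Module.equiv_directSum_of_isTorsion htor
  have hroot : ∀ i, ∃ μ : ℂ, Submodule.span ℂ[X] {p i ^ e i} =
      Submodule.span ℂ[X] {(X - C μ) ^ e i} := by
    intro i
    have hdeg : (p i).degree = 1 := IsAlgClosed.degree_eq_one_of_irreducible ℂ (hp i)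
    obtain ⟨μ, hμ⟩ := IsAlgClosed.exists_root (p i) (by rw [hdeg]; exact one_ne_zero)
    refine ⟨μ, ?_⟩
    have h1 : Associated (X - C μ) (p i) :=
      (irreducible_X_sub_C μ).associated_of_dvd (hp i) (dvd_iff_isRoot.2 hμ)
    exact Ideal.span_singleton_eq_span_singleton.2 (h1.symm.pow_pow)
  choose μ hμ using hroot
  let E' : Module.AEval' T ≃ₗ[ℂ[X]]
      (DirectSum I fun i => ℂ[X] ⧸ (Submodule.span ℂ[X] {(X - C (μ i)) ^ e i})) :=
    E.trans (DFinsupp.mapRange.linearEquiv fun i => Submodule.quotEquivOfEq _ _ (hμ i))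
  let F : V ≃ₗ[ℂ] (DirectSum I fun i => ℂ[X] ⧸ (Submodule.span ℂ[X] {(X - C (μ i)) ^ e i})) :=
    (Module.AEval'.of T).trans (E'.restrictScalars ℂ)
  have hF : ∀ v, F (T v) = (X : ℂ[X]) • F v := by
    intro v
    have h1 : Module.AEval'.of T (T v) = (X : ℂ[X]) • Module.AEval'.of T v :=
      (Module.AEval.X_smul_of (R := ℂ) T v).symm
    change E' (Module.AEval'.of T (T v)) = (X : ℂ[X]) • E' (Module.AEval'.of T v)
    rw [h1, map_smul]
  let b₀ : Basis (Σ i, Fin (e i)) ℂ
      (DirectSum I fun i => ℂ[X] ⧸ (Submodule.span ℂ[X] {(X - C (μ i)) ^ e i})) :=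
    DFinsupp.basis fun i => qbasis (μ i) (e i)
  have hb₀ : ∀ i (j : Fin (e i)), b₀ ⟨i, j⟩ = DirectSum.of _ i (qvec (μ i) (e i) j) := by
    intro i j
    rw [Basis.apply_eq_iff]
    ext ⟨i', j'⟩
    have h1 : ∀ g, b₀.repr g ⟨i', j'⟩ = (qbasis (μ i') (e i')).repr (g i') j' := fun g => rfl
    rw [h1]
    by_cases hi : i = i'
    · subst hi
      rw [DirectSum.of_eq_same, ← qbasis_apply, Basis.repr_self]
      by_cases hj : j = j'
      · subst hj
        rw [Finsupp.single_eq_same, Finsupp.single_eq_same]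
      · rw [Finsupp.single_eq_of_ne (Ne.symm hj), Finsupp.single_eq_of_ne]
        intro h
        apply hj
        simpa using h.symm
    · rw [DirectSum.of_eq_of_ne _ _ _ (Ne.symm hi), map_zero, Finsupp.zero_apply, Finsupp.single_eq_of_ne]
      intro h
      apply hi
      exact (congrArg Sigma.fst h).symm
  refine ⟨I, hI, e, μ, b₀.map F.symm, ?_⟩
  intro i j
  rw [Basis.map_apply]
  apply F.injective
  rw [hF, LinearEquiv.apply_symm_apply, hb₀, map_add, map_smul, LinearEquiv.apply_symm_apply]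
  have h2 : (X : ℂ[X]) • (DirectSum.of (fun i => ℂ[X] ⧸ (Submodule.span ℂ[X] {(X - C (μ i)) ^ e i}))
      i (qvec (μ i) (e i) j)) = DirectSum.of _ i ((X : ℂ[X]) • qvec (μ i) (e i) j) := by
    rw [← DirectSum.lof_eq_of ℂ[X], ← map_smul]
    rfl
  have h3 : μ i • (DirectSum.of (fun i => ℂ[X] ⧸ (Submodule.span ℂ[X] {(X - C (μ i)) ^ e i}))
      i (qvec (μ i) (e i) j)) = DirectSum.of _ i (μ i • qvec (μ i) (e i) j) := by
    rw [← DirectSum.lof_eq_of ℂ, ← map_smul]
    rfl
  rw [h2, h3, X_smul_qvec, map_add]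
  congr 1
  split_ifs with h
  · rw [Basis.map_apply, LinearEquiv.apply_symm_apply, hb₀]
  · rw [map_zero, map_zero]

/-- every matrix over `ℂ` has a Jordan normal form -/
theorem exists_jordanForm {ι : Type} [Fintype ι] [DecidableEq ι] (B : Matrix ι ι ℂ) :
    ∃ (r : ℕ) (s : Fin r → ℕ) (μ : Fin r → ℂ), IsJordanForm B r s μ := by
  classical
  obtain ⟨I, hI, e, ν, b, hb⟩ := exists_jordanBasis (Matrix.toLin' B)
  let I' := {i : I // e i ≠ 0}
  let σ : Fin (Fintype.card I') ≃ I' := (Fintype.equivFin I').symm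
  let s : Fin (Fintype.card I') → ℕ := fun k => e (σ k).1
  let μ : Fin (Fintype.card I') → ℂ := fun k => ν (σ k).1
  let τ : (Σ k, Fin (s k)) ≃ Σ i, Fin (e i) :=
    Equiv.ofBijective (fun x => ⟨(σ x.1).1, x.2⟩) (by
      constructor
      · rintro ⟨k, j⟩ ⟨k', j'⟩ h
        simp only at h
        have h1 : (σ k).1 = (σ k').1 := congrArg Sigma.fst h
        have h2 : k = k' := σ.injective (Subtype.ext h1)
        subst h2
        simpa using h
      · rintro ⟨i, j⟩
        have hi : e i ≠ 0 := by have := j.2; omega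
        obtain ⟨k, hk⟩ := σ.surjective ⟨i, hi⟩
        have hk' : (σ k).1 = i := by rw [hk]
        subst hk'
        exact ⟨⟨k, j⟩, rfl⟩)
  let b' : Basis (Σ k, Fin (s k)) ℂ (ι → ℂ) := b.reindex τ.symm
  have hb' : IsJordanBasis (Matrix.toLin' B) s μ b' := by
    intro k j
    have h1 : ∀ j : Fin (s k), b' ⟨k, j⟩ = b ⟨(σ k).1, j⟩ := fun j => by
      simp only [b', Basis.reindex_apply]
      rfl
    rw [h1, hb]
    congr 1
    split_ifs with h
    · rw [h1]
    · rfl
  refine ⟨Fintype.card I', s, μ, fun k => Nat.one_le_iff_ne_zero.2 (σ k).2, ?_⟩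
  refine ⟨(Pi.basisFun ℂ ι).toMatrix b', b'.toMatrix (Pi.basisFun ℂ ι), ?_, ?_, ?_⟩
  · exact Basis.toMatrix_mul_toMatrix_flip _ _
  · exact Basis.toMatrix_mul_toMatrix_flip _ _
  · have h1 : B = LinearMap.toMatrix (Pi.basisFun ℂ ι) (Pi.basisFun ℂ ι) (Matrix.toLin' B) := by
      rw [← Matrix.toLin_eq_toLin', LinearMap.toMatrix_toLin]
    rw [h1, basis_toMatrix_mul_linearMap_toMatrix_mul_basis_toMatrix]
    ext ⟨i, a⟩ ⟨j, c⟩
    rw [LinearMap.toMatrix_apply, hb', map_add, map_smul, Basis.repr_self, Finsupp.add_apply,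
      Finsupp.smul_apply]
    have h2 : (b'.repr (if h : 1 ≤ (c : ℕ) then b' ⟨j, ⟨c - 1, by omega⟩⟩ else 0)) ⟨i, a⟩ =
        if h : 1 ≤ (c : ℕ) then
          (Finsupp.single (⟨j, ⟨c - 1, by omega⟩⟩ : Σ k, Fin (s k)) (1 : ℂ)) ⟨i, a⟩ else 0 := by
      split_ifs with h
      · rw [Basis.repr_self]
      · rw [map_zero, Finsupp.zero_apply]
    rw [h2]
    by_cases hij : i = j
    · subst hij
      rw [Matrix.blockDiagonal'_apply_eq]
      unfold jordanBlock
      rw [Matrix.of_apply]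
      by_cases hac : a = c
      · subst hac
        rw [Finsupp.single_eq_same, if_pos rfl]
        have h3 : (if h : 1 ≤ (a : ℕ) then
          (Finsupp.single (⟨i, ⟨a - 1, by omega⟩⟩ : Σ k, Fin (s k)) (1 : ℂ)) ⟨i, a⟩ else 0) = 0 := by
          split_ifs with h
          · rw [Finsupp.single_eq_of_ne]
            intro h4
            simp only [Sigma.mk.injEq, heq_eq_eq, true_and] at h4
            have h5 := congrArg Fin.val h4
            simp only at h5
            omega
          · rfl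
        rw [h3]
        simp
      · rw [if_neg hac, Finsupp.single_eq_of_ne (by
          intro h4
          simp only [Sigma.mk.injEq, heq_eq_eq, true_and] at h4
          exact hac h4), smul_zero, zero_add]
        by_cases h6 : (a : ℕ) + 1 = (c : ℕ)
        · rw [if_pos h6, dif_pos (by omega)]
          have h7 : (⟨(c : ℕ) - 1, by omega⟩ : Fin (s i)) = a := Fin.ext (by simp only; omega)
          rw [h7, Finsupp.single_eq_same]
        · rw [if_neg h6]
          split_ifs with h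
          · rw [Finsupp.single_eq_of_ne]
            intro h4
            simp only [Sigma.mk.injEq, heq_eq_eq, true_and] at h4
            have h5 := congrArg Fin.val h4
            simp only at h5
            omega
          · rfl
    · rw [Matrix.blockDiagonal'_apply_ne _ _ _ hij, Finsupp.single_eq_of_ne (by
          intro h4
          exact hij (congrArg Sigma.fst h4)), smul_zero, zero_add]
      split_ifs with h
      · rw [Finsupp.single_eq_of_ne]
        intro h4
        exact hij (congrArg Sigma.fst h4)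
      · rfl

/-- a Jordan block has at most as many rows as the matrix -/
theorem IsJordanForm.le_card {ι : Type} [Fintype ι] [DecidableEq ι] {B : Matrix ι ι ℂ} {r : ℕ}
    {s : Fin r → ℕ} {μ : Fin r → ℂ} (h : IsJordanForm B r s μ) (i : Fin r) :
    s i ≤ Fintype.card ι := by
  obtain ⟨_, P, Q, hPQ, hQP, -⟩ := h
  have h1 := (Matrix.toLin'OfInv hPQ hQP).finrank_eq
  rw [Module.finrank_fintype_fun_eq_card, Module.finrank_fintype_fun_eq_card,
    Fintype.card_sigma] at h1
  simp only [Fintype.card_fin] at h1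
  have h2 : s i ≤ ∑ i, s i := Finset.single_le_sum (fun _ _ => Nat.zero_le _) (Finset.mem_univ i)
  omega

end

end Helper114NB
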