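import Pool.Agent.Helper114_NB.Semi

set_option autoImplicit false

/-!
# Nonbacktracking matrices with large Jordan blocks: the constant `1` is in the group
-/

namespace Helper114NB

open PowerSeries Finset

noncomputable section

/-- the series `X - 3` with integer coefficients -/
def lamZ : ℤ⟦X⟧ := X - C (3 : ℤ)

theorem mz_lamZ : mz lamZ = lam := by
  unfold lamZ lam mz
  rw [map_sub, PowerSeries.map_X, PowerSeries.map_C]
  simp

theorem mz_C (m : ℤ) : mz (C m) = (m : ℚ⟦X⟧) := by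
  rw [PowerSeries.map_C, eq_intCast, map_intCast]

theorem mz_Xpow (k : ℕ) : mz (X ^ k) = X ^ k := by
  rw [map_pow, PowerSeries.map_X]

theorem coeff_lamZ_pow (n j : ℕ) : coeff j (lamZ ^ n) = (-3 : ℤ) ^ (n - j) * (n.choose j : ℤ) := by
  have h : lamZ ^ n = (((Polynomial.X + Polynomial.C (-3 : ℤ)) ^ n : Polynomial ℤ) : ℤ⟦X⟧) := by
    unfold lamZ
    rw [Polynomial.coe_pow]
    congr 1
    rw [Polynomial.coe_add, Polynomial.coe_X, Polynomial.coe_C, map_neg, sub_eq_add_neg]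
  rw [h, Polynomial.coeff_coe, Polynomial.coeff_X_add_C_pow]

theorem split_dvd {k : ℕ} {m : ℤ} {f : ℤ⟦X⟧} (h : ∀ j < k, m ∣ coeff j f) :
    ∃ U Z : ℤ⟦X⟧, f = C m * U + X ^ k * Z := by
  classical
  refine ⟨PowerSeries.mk fun j => if hj : j < k then (h j hj).choose else 0,
    PowerSeries.mk fun j => coeff (j + k) f, ?_⟩
  ext n
  rw [map_add, coeff_C_mul, coeff_mk, coeff_X_pow_mul']
  by_cases hn : n < k
  · rw [dif_pos hn, if_neg (by omega), add_zero]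
    exact (h n hn).choose_spec
  · rw [dif_neg hn, if_pos (by omega), mul_zero, zero_add, coeff_mk]
    congr 2
    omega

/-- powers of `X - 3` close to `1` -/
theorem pow_close {p : ℕ} (hp : p.Prime) (hp3 : p ≠ 3) (b k : ℕ) (hb : 1 ≤ b) :
    ∃ l, 3 ≤ l ∧ ∃ U Z : ℤ⟦X⟧, lamZ ^ l = 1 + C ((p : ℤ) ^ b) * U + X ^ k * Z := by
  have hφ : 0 < Nat.totient (p ^ b) := Nat.totient_pos.2 (pow_pos hp.pos b)
  have hfac : 0 < k.factorial := Nat.factorial_pos k
  have hpb : 2 ≤ p ^ b := by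
    calc 2 ≤ p := hp.two_le
      _ = p ^ 1 := (pow_one p).symm
      _ ≤ p ^ b := Nat.pow_le_pow_right hp.pos hb
  refine ⟨2 * (p ^ b * k.factorial * Nat.totient (p ^ b)), ?_, ?_⟩
  · have h1 : 2 * 1 * 1 ≤ p ^ b * k.factorial * Nat.totient (p ^ b) :=
      Nat.mul_le_mul (Nat.mul_le_mul hpb hfac) hφ
    omega
  · set l := 2 * (p ^ b * k.factorial * Nat.totient (p ^ b)) with hl
    have key : ∀ j < k, ((p : ℤ) ^ b) ∣ coeff j (lamZ ^ l - 1) := by
      intro j hj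
      rw [map_sub, coeff_lamZ_pow, coeff_one]
      cases j with
      | zero =>
        rw [if_pos rfl, Nat.choose_zero_right, Nat.cast_one, mul_one, Nat.sub_zero]
        have h9 : Nat.Coprime 9 (p ^ b) := by
          refine Nat.Coprime.pow_right b ?_
          have : Nat.Coprime 3 p := (Nat.coprime_primes Nat.prime_three hp).2 (Ne.symm hp3)
          exact Nat.Coprime.pow_left 2 this
        have h1 := (Nat.ModEq.pow_totient h9).pow (p ^ b * k.factorial)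
        rw [one_pow, ← pow_mul] at h1
        have h2 := (Nat.modEq_iff_dvd.1 h1.symm)
        have h3 : ((-3 : ℤ)) ^ l = ((9 ^ (Nat.totient (p ^ b) * (p ^ b * k.factorial)) : ℕ) : ℤ) := by
          rw [hl, pow_mul]
          push_cast
          congr 1
          ring
        rw [h3]
        push_cast at h2 ⊢
        exact h2
      | succ j =>
        rw [if_neg (Nat.succ_ne_zero j), sub_zero]
        refine Dvd.dvd.mul_left ?_ _
        have h1 : (j + 1) ∣ k.factorial := Nat.dvd_factorial (Nat.succ_pos j) hj.le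
        obtain ⟨q, hq⟩ := h1
        obtain ⟨l', hl'⟩ : ∃ l', l = l' + 1 := ⟨l - 1, by
          have : 0 < l := by rw [hl]; positivity
          omega⟩
        have h2 := Nat.add_one_mul_choose_eq l' j
        have h3 : l.choose (j + 1) = p ^ b * (2 * q * Nat.totient (p ^ b) * l'.choose j) := by
          have h4 : l.choose (j + 1) * (j + 1) = l * l'.choose j := by
            rw [hl']; exact h2.symm
          have h5 : l = p ^ b * (2 * q * Nat.totient (p ^ b)) * (j + 1) := by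
            rw [hl, hq]; ring
          have h6 : l.choose (j + 1) * (j + 1) =
              p ^ b * (2 * q * Nat.totient (p ^ b) * l'.choose j) * (j + 1) := by
            rw [h4]
            conv_lhs => rw [h5]
            ring
          exact Nat.eq_of_mul_eq_mul_right (Nat.succ_pos j) h6
        rw [h3]
        push_cast
        exact Dvd.intro _ rfl
    obtain ⟨U, Z, hUZ⟩ := split_dvd key
    exact ⟨U, Z, by linear_combination hUZ⟩

/-- powers of `X - 3` close to `0` -/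
theorem pow_close_three (b k : ℕ) :
    ∃ l, 3 ≤ l ∧ ∃ U Z : ℤ⟦X⟧, lamZ ^ l = C ((3 : ℤ) ^ b) * U + X ^ k * Z := by
  refine ⟨b + k + 3, by omega, split_dvd fun j hj => ?_⟩
  rw [coeff_lamZ_pow]
  refine Dvd.dvd.mul_right ?_ _
  have h1 : b + k + 3 - j = b + (k + 3 - j) := by omega
  rw [h1, pow_add]
  refine Dvd.dvd.mul_right ?_ _
  rw [neg_pow]
  exact Dvd.intro_left _ rfl

theorem bb_mul {l : ℕ} (hl : 3 ≤ l) : bb l * (1 + lam ^ l) = C (2 : ℚ) := by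
  have := gg_mul (l := l) (by omega)
  unfold bb
  linear_combination C (2 : ℚ) * this

/-- the main step -/
theorem step {k : ℕ} {p a : ℕ} (hp : p.Prime) (ha : 1 ≤ a) {M' : ℕ} (hM' : ¬ p ∣ M')
    (hM : ∀ U : ℤ⟦X⟧, (M' * p ^ a) • mz U ∈ GG k) {l : ℕ} (hl : 3 ≤ l) {c d : ℤ}
    (hc : ¬ (p : ℤ) ∣ c) (hd : ¬ (p : ℤ) ∣ d) {P U : ℤ⟦X⟧} (hP : P = C d + C ((p : ℤ) ^ a) * U)
    (hb : X ^ k ∣ bb l * mz P - C (c : ℚ)) :
    ∃ n : ℤ, ¬ (p : ℤ) ∣ n ∧ n • (1 : ℚ⟦X⟧) ∈ GG k := by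
  have hpZ : Prime (p : ℤ) := Nat.prime_iff_prime_int.1 hp
  set P₀ : ℤ := constantCoeff P with hP₀
  have hP₀' : P₀ = d + (p : ℤ) ^ a * constantCoeff U := by
    rw [hP₀, hP, map_add, map_mul]; simp
  have hpP₀ : ¬ (p : ℤ) ∣ P₀ := by
    rw [hP₀']
    intro h
    refine hd ((Int.dvd_iff_dvd_of_dvd_sub ?_).1 h)
    rw [add_sub_cancel_left]
    exact Dvd.dvd.mul_right (dvd_pow_self _ (by omega)) _
  set q : ℤ := P₀ ^ k with hq
  have hpq : ¬ (p : ℤ) ∣ q := fun h => hpP₀ (hpZ.dvd_of_dvd_pow h)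
  set W : ℤ⟦X⟧ := ∑ i ∈ range k, (C P₀) ^ i * (C P₀ - P) ^ (k - 1 - i) with hW
  have hWP : W * P = C q - (C P₀ - P) ^ k := by
    have h := (Commute.all (C P₀) (C P₀ - P)).geom_sum₂_mul k
    rw [← hW] at h
    have h2 : C P₀ - (C P₀ - P) = P := by ring
    rw [h2] at h
    rw [h, hq, map_pow]
  have hX : (X : ℤ⟦X⟧) ^ k ∣ (C P₀ - P) ^ k := by
    refine pow_dvd_pow_of_dvd ?_ k
    rw [X_dvd_iff, map_sub, constantCoeff_C, hP₀, sub_self]
  obtain ⟨A, hA⟩ := hX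
  obtain ⟨B, hB⟩ := hb
  refine ⟨(M' : ℤ) * c * q, ?_, ?_⟩
  · intro h
    rcases hpZ.dvd_or_dvd h with h | h
    · rcases hpZ.dvd_or_dvd h with h | h
      · exact hM' (by exact_mod_cast h)
      · exact hc h
    · exact hpq h
  · have h1 : ((M' : ℤ) * d * q) • bb l + (M' * p ^ a) • mz (C c * (U * W)) ∈ GG k :=
      AddSubgroup.add_mem _ (AddSubgroup.zsmul_mem _ (bb_mem k hl) _) (hM _)
    refine congr_GG h1 ?_
    have e1 : mz W * mz P = (q : ℚ⟦X⟧) - X ^ k * mz A := by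
      rw [← map_mul, hWP, map_sub, hA, map_mul, mz_Xpow, mz_C]
    have e2 : bb l * mz P = (c : ℚ⟦X⟧) + X ^ k * B := by
      rw [← hB, map_intCast]
      ring
    have e3 : mz P = (d : ℚ⟦X⟧) + (p : ℚ⟦X⟧) ^ a * mz U := by
      rw [hP, map_add, map_mul, mz_C, mz_C]
      push_cast
      rfl
    have e4 : mz (C c * (U * W)) = (c : ℚ⟦X⟧) * (mz U * mz W) := by
      rw [map_mul, map_mul, mz_C]
    rw [e4]
    refine ⟨(M' : ℚ⟦X⟧) * (-(q : ℚ⟦X⟧) * B + (p : ℚ⟦X⟧) ^ a * mz U * (mz W * B + mz A * bb l)), ?_⟩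
    simp only [zsmul_eq_mul, nsmul_eq_mul]
    push_cast
    linear_combination (M' : ℚ⟦X⟧) * (-(p : ℚ⟦X⟧) ^ a * mz U * bb l * e1 +
      (-(q : ℚ⟦X⟧) + (p : ℚ⟦X⟧) ^ a * mz U * mz W) * e2 + (q : ℚ⟦X⟧) * bb l * e3)

theorem prime_lemma (k : ℕ) {p : ℕ} (hp : p.Prime) :
    ∃ n : ℤ, ¬ (p : ℤ) ∣ n ∧ n • (1 : ℚ⟦X⟧) ∈ GG k := by
  obtain ⟨M, hM, hMU⟩ := exists_M k
  set v := M.factorization p with hv
  set M' := M / p ^ v with hM'
  have hMM : p ^ v * M' = M := Nat.ordProj_mul_ordCompl_eq_self M p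
  have hpM' : ¬ p ∣ M' := Nat.not_dvd_ordCompl hp (by omega)
  have hU : ∀ U : ℤ⟦X⟧, (M' * p ^ (v + 1)) • mz U ∈ GG k := by
    intro U
    have : M' * p ^ (v + 1) = p * M := by rw [← hMM]; ring
    rw [this, mul_nsmul']
    exact AddSubgroup.nsmul_mem _ (hMU U) _
  by_cases hp3 : p = 3
  · subst hp3
    obtain ⟨l, hl, U, Z, hUZ⟩ := pow_close_three (v + 1) k
    refine step hp (by omega) hpM' hU hl (c := 2) (d := 1) (by norm_num) (by norm_num)
      (P := C 1 + C ((3 : ℤ) ^ (v + 1)) * U) (U := U) (by push_cast; rfl) ?_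
    have h1 := bb_mul hl
    have h2 : lam ^ l = mz (lamZ ^ l) := by rw [map_pow, mz_lamZ]
    refine ⟨-(mz Z * bb l), ?_⟩
    rw [h2, hUZ, map_add] at h1
    have h3 : mz ((X : ℤ⟦X⟧) ^ k * Z) = X ^ k * mz Z := by
      rw [map_mul, mz_Xpow]
    rw [h3] at h1
    have h4 : mz (C (1 : ℤ) + C ((3 : ℤ) ^ (v + 1)) * U) = 1 + mz (C ((3 : ℤ) ^ (v + 1)) * U) := by
      rw [map_add, mz_C, Int.cast_one]
    rw [h4]
    have h5 : (C ((2 : ℤ) : ℚ) : ℚ⟦X⟧) = C (2 : ℚ) := by norm_num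
    rw [h5]
    linear_combination h1
  by_cases hp2 : p = 2
  · subst hp2
    obtain ⟨l, hl, U, Z, hUZ⟩ := pow_close hp hp3 (v + 2) k (by omega)
    refine step hp (by omega) hpM' hU hl (c := 1) (d := 1) (by norm_num) (by norm_num)
      (P := C 1 + C ((2 : ℤ) ^ (v + 1)) * U) (U := U) (by push_cast; rfl) ?_
    have h1 := bb_mul hl
    have h2 : lam ^ l = mz (lamZ ^ l) := by rw [map_pow, mz_lamZ]
    refine ⟨-(C (1 / 2 : ℚ) * mz Z * bb l), ?_⟩
    rw [h2, hUZ, map_add, map_add] at h1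
    have h3 : mz ((X : ℤ⟦X⟧) ^ k * Z) = X ^ k * mz Z := by
      rw [map_mul, mz_Xpow]
    have h4 : mz (C (1 : ℤ) + C ((2 : ℤ) ^ (v + 1)) * U) = 1 + (2 : ℚ⟦X⟧) ^ (v + 1) * mz U := by
      rw [map_add, map_mul, mz_C, mz_C]; push_cast; rfl
    have h4' : mz (C (((2 : ℕ) : ℤ) ^ (v + 2)) * U) = (2 : ℚ⟦X⟧) ^ (v + 2) * mz U := by
      rw [map_mul, mz_C]; push_cast; rfl
    rw [h3, h4', map_one] at h1
    rw [h4]
    have h5 : (C ((1 : ℤ) : ℚ) : ℚ⟦X⟧) = C (1 / 2 : ℚ) * C (2 : ℚ) := by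
      rw [← map_mul]; norm_num
    have h6 : C (1 / 2 : ℚ) * (2 : ℚ⟦X⟧) = 1 := by
      have : (2 : ℚ⟦X⟧) = C (2 : ℚ) := (map_ofNat C 2).symm
      rw [this, ← map_mul]; norm_num
    rw [h5]
    linear_combination C (1 / 2 : ℚ) * h1 - (bb l * (1 + (2 : ℚ⟦X⟧) ^ (v + 1) * mz U)) * h6
  · obtain ⟨l, hl, U, Z, hUZ⟩ := pow_close hp hp3 (v + 1) k (by omega)
    have hp2' : ¬ (p : ℤ) ∣ 2 := by
      intro h
      have h1 : p ∣ 2 := by exact_mod_cast h
      exact hp2 ((Nat.prime_dvd_prime_iff_eq hp Nat.prime_two).1 h1)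
    refine step hp (by omega) hpM' hU hl (c := 2) (d := 2) hp2' hp2'
      (P := C 2 + C ((p : ℤ) ^ (v + 1)) * U) (U := U) rfl ?_
    have h1 := bb_mul hl
    have h2 : lam ^ l = mz (lamZ ^ l) := by rw [map_pow, mz_lamZ]
    refine ⟨-(mz Z * bb l), ?_⟩
    rw [h2, hUZ, map_add, map_add] at h1
    have h3 : mz ((X : ℤ⟦X⟧) ^ k * Z) = X ^ k * mz Z := by
      rw [map_mul, mz_Xpow]
    have h4 : mz (C (2 : ℤ) + C ((p : ℤ) ^ (v + 1)) * U) = 2 + mz (C ((p : ℤ) ^ (v + 1)) * U) := by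
      rw [map_add, mz_C]; norm_num
    rw [h3, map_one] at h1
    rw [h4]
    have h5 : (C ((2 : ℤ) : ℚ) : ℚ⟦X⟧) = C (2 : ℚ) := by norm_num
    rw [h5]
    linear_combination h1

theorem one_mem (k : ℕ) : (1 : ℚ⟦X⟧) ∈ GG k := by
  let H : AddSubgroup ℤ := (GG k).comap (zmultiplesHom ℚ⟦X⟧ (1 : ℚ⟦X⟧))
  have hH : ∀ n : ℤ, n ∈ H ↔ n • (1 : ℚ⟦X⟧) ∈ GG k := fun n => Iff.rfl
  obtain ⟨d, hd⟩ := Int.subgroup_cyclic H
  have h1 : d.natAbs = 1 := by
    by_contra hne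
    obtain ⟨p, hp, hpd⟩ := Nat.exists_prime_and_dvd hne
    obtain ⟨n, hn, hnm⟩ := prime_lemma k hp
    have h2 : n ∈ H := (hH n).2 hnm
    rw [hd, AddSubgroup.mem_closure_singleton] at h2
    obtain ⟨z, hz⟩ := h2
    refine hn ?_
    rw [← hz, smul_eq_mul]
    exact Dvd.dvd.mul_left (Int.natCast_dvd.2 hpd) _
  have h3 : (1 : ℤ) ∈ H := by
    rw [hd, AddSubgroup.mem_closure_singleton]
    rcases Int.natAbs_eq d with h | h
    · exact ⟨1, by rw [h, h1]; norm_num⟩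
    · exact ⟨-1, by rw [h, h1]; norm_num⟩
  have h4 := (hH 1).1 h3
  rwa [one_smul] at h4

/-- The combination of series `2 / (1 + lam ^ l)` which agrees with `1` up to the order `k`. -/
theorem exists_list (k : ℕ) : ∃ L : List ℕ, (∀ l ∈ L, 3 ≤ l) ∧ X ^ k ∣ (L.map bb).sum - 1 := by
  obtain ⟨s, hs, hdvd⟩ := one_mem k
  obtain ⟨L, hL, rfl⟩ := AddSubmonoid.exists_list_of_mem_closure hs
  choose! f hf using hL
  refine ⟨L.map f, ?_, ?_⟩
  · intro l hl
    obtain ⟨z, hz, rfl⟩ := List.mem_map.1 hl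
    exact (hf z hz).1
  · rw [List.map_map]
    have : L.map (bb ∘ f) = L := by
      conv_rhs => rw [← List.map_id L]
      refine List.map_congr_left fun z hz => ?_
      rw [Function.comp_apply, id_eq]
      exact (hf z hz).2.symm
    rw [this, ← dvd_neg, neg_sub]
    exact hdvd

end

end Helper114NB
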