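import Mathlib

set_option autoImplicit false

/-!
# Nonbacktracking matrices and Jordan normal forms: definitions

A Jordan chain of length `N` forces a block of size at least `N` in every Jordan normal form.
-/

namespace Helper114NB

open Matrix

noncomputable section

/-- The nonbacktracking matrix over `ℂ`; rows and columns are indexed by the directed edges. -/
def nbMatrix {V : Type} [DecidableEq V] (G : SimpleGraph V) : Matrix G.Dart G.Dart ℂ :=
  Matrix.of fun a b => if a.snd = b.fst ∧ a.fst ≠ b.snd then 1 else 0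

/-- The Jordan block with `s` rows and eigenvalue `μ`. -/
def jordanBlock (s : ℕ) (μ : ℂ) : Matrix (Fin s) (Fin s) ℂ :=
  Matrix.of fun a b => if a = b then μ else if (a : ℕ) + 1 = (b : ℕ) then 1 else 0

/-- `B` has the Jordan normal form with the `r` blocks `jordanBlock (s i) (μ i)`: these blocks are
not empty and `B` is similar to the block diagonal matrix with these blocks. -/
def IsJordanForm {ι : Type} [Fintype ι] [DecidableEq ι] (B : Matrix ι ι ℂ) (r : ℕ)
    (s : Fin r → ℕ) (μ : Fin r → ℂ) : Prop :=
  (∀ i, 1 ≤ s i) ∧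
    ∃ (P : Matrix ι (Σ i, Fin (s i)) ℂ) (Q : Matrix (Σ i, Fin (s i)) ι ℂ),
      P * Q = 1 ∧ Q * P = 1 ∧
        Q * B * P = Matrix.blockDiagonal' fun i => jordanBlock (s i) (μ i)

theorem jordanBlock_sub (s : ℕ) (μ ν : ℂ) :
    jordanBlock s μ - ν • (1 : Matrix (Fin s) (Fin s) ℂ) = jordanBlock s (μ - ν) := by
  ext a b
  rw [Matrix.sub_apply, Matrix.smul_apply]
  unfold jordanBlock
  rw [Matrix.of_apply, Matrix.of_apply]
  by_cases h : a = b
  · subst h; simp
  · rw [if_neg h, if_neg h, Matrix.one_apply_ne h]; simp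

theorem jordanBlock_zero_pow (s m : ℕ) (a b : Fin s) :
    (jordanBlock s 0 ^ m) a b = if (a : ℕ) + m = (b : ℕ) then 1 else 0 := by
  induction m generalizing b with
  | zero =>
    rw [pow_zero, Matrix.one_apply, add_zero]
    by_cases h : a = b
    · subst h; simp
    · rw [if_neg h, if_neg (fun h' => h (Fin.ext h'))]
  | succ m ih =>
    rw [pow_succ, Matrix.mul_apply]
    simp only [ih]
    by_cases hb : (a : ℕ) + (m + 1) = (b : ℕ)
    · rw [if_pos hb]
      have hlt : (a : ℕ) + m < s := by have := b.2; omega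
      rw [Finset.sum_eq_single (⟨(a : ℕ) + m, hlt⟩ : Fin s)]
      · rw [if_pos rfl, one_mul]
        unfold jordanBlock
        rw [Matrix.of_apply]
        split_ifs with h1 h2
        · exfalso
          have := congrArg Fin.val h1
          simp only at this
          omega
        · rfl
        · exfalso; simp only at h2; omega
      · intro c _ hc
        rw [if_neg, zero_mul]
        intro h
        exact hc (Fin.ext h.symm)
      · intro h; exact absurd (Finset.mem_univ _) h
    · rw [if_neg hb]
      refine Finset.sum_eq_zero fun c _ => ?_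
      by_cases hc : (a : ℕ) + m = (c : ℕ)
      · rw [if_pos hc, one_mul]
        unfold jordanBlock
        rw [Matrix.of_apply]
        split_ifs with h1 h2
        · rfl
        · exfalso; omega
        · rfl
      · rw [if_neg hc, zero_mul]

theorem jordanBlock_zero_pow_eq_zero {s m : ℕ} (h : s ≤ m) : jordanBlock s 0 ^ m = 0 := by
  ext a b
  rw [jordanBlock_zero_pow, if_neg, Matrix.zero_apply]
  have := b.2
  omega

theorem jordanBlock_det (s : ℕ) (μ : ℂ) : (jordanBlock s μ).det = μ ^ s := by
  rw [Matrix.det_of_isUpperTriangular]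
  · have : ∀ i : Fin s, jordanBlock s μ i i = μ := fun i => by
      unfold jordanBlock; rw [Matrix.of_apply, if_pos rfl]
    simp only [this]
    simp
  · intro a b hab
    have hab' : b < a := hab
    unfold jordanBlock
    rw [Matrix.of_apply, if_neg (ne_of_gt hab'), if_neg]
    have : (b : ℕ) < a := hab
    omega

/-- A Jordan chain of length `N` forces a block with at least `N` rows. -/
theorem exists_block {ι : Type} [Fintype ι] [DecidableEq ι] {B : Matrix ι ι ℂ} {ν : ℂ} {N : ℕ}
    {v : ι → ℂ} (h0 : ((B - ν • 1) ^ N) *ᵥ v = 0) (h1 : ((B - ν • 1) ^ (N - 1)) *ᵥ v ≠ 0)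
    {r : ℕ} {s : Fin r → ℕ} {μ : Fin r → ℂ} (hJ : IsJordanForm B r s μ) :
    ∃ i, N ≤ s i := by
  by_contra hcon
  push Not at hcon
  obtain ⟨_, P, Q, hPQ, hQP, hB⟩ := hJ
  set J : ∀ i, Matrix (Fin (s i)) (Fin (s i)) ℂ := fun i => jordanBlock (s i) (μ i - ν) with hJdef
  have hD : Q * (B - ν • 1) * P = Matrix.blockDiagonal' J := by
    rw [Matrix.mul_sub, Matrix.sub_mul, hB, Matrix.mul_smul, Matrix.mul_one, Matrix.smul_mul, hQP,
      ← Matrix.blockDiagonal'_one, ← Matrix.blockDiagonal'_smul, ← Matrix.blockDiagonal'_sub]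
    congr 1
    funext i
    exact jordanBlock_sub _ _ _
  have hpow : ∀ m : ℕ, Q * (B - ν • 1) ^ m = Matrix.blockDiagonal' (fun i => J i ^ m) * Q := by
    intro m
    induction m with
    | zero =>
      simp only [pow_zero]
      rw [Matrix.mul_one]
      have : Matrix.blockDiagonal' (fun i => (1 : Matrix (Fin (s i)) (Fin (s i)) ℂ)) = 1 :=
        Matrix.blockDiagonal'_one
      rw [this, Matrix.one_mul]
    | succ m ih =>
      have h2 : Q * (B - ν • 1) = Matrix.blockDiagonal' J * Q := by
        rw [← hD, Matrix.mul_assoc _ P Q, hPQ, Matrix.mul_one]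
      have h3 : Matrix.blockDiagonal' (fun i => J i ^ (m + 1)) =
          Matrix.blockDiagonal' (fun i => J i ^ m) * Matrix.blockDiagonal' J := by
        rw [← Matrix.blockDiagonal'_mul]
        congr 1
      rw [pow_succ, ← Matrix.mul_assoc, ih, Matrix.mul_assoc, h2, h3, Matrix.mul_assoc]
  set w := Q *ᵥ v with hw
  have hw0 : Matrix.blockDiagonal' (fun i => J i ^ N) *ᵥ w = 0 := by
    rw [hw, Matrix.mulVec_mulVec, ← hpow, ← Matrix.mulVec_mulVec, h0, Matrix.mulVec_zero]
  have hw1 : Matrix.blockDiagonal' (fun i => J i ^ (N - 1)) *ᵥ w = 0 := by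
    funext ⟨i, a⟩
    have hbd : ∀ m : ℕ, (Matrix.blockDiagonal' (fun i => J i ^ m) *ᵥ w) ⟨i, a⟩ =
        ((J i ^ m) *ᵥ fun b => w ⟨i, b⟩) a := by
      intro m
      rw [Matrix.mulVec, dotProduct, Fintype.sum_sigma, Finset.sum_eq_single i]
      · rw [Matrix.mulVec, dotProduct]
        refine Finset.sum_congr rfl fun b _ => ?_
        rw [Matrix.blockDiagonal'_apply_eq]
      · intro j _ hj
        refine Finset.sum_eq_zero fun b _ => ?_
        rw [Matrix.blockDiagonal'_apply_ne _ _ _ (Ne.symm hj), zero_mul]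
      · intro h; exact absurd (Finset.mem_univ _) h
    by_cases hν : μ i = ν
    · rw [hbd]
      have hz : J i ^ (N - 1) = 0 := by
        have : J i = jordanBlock (s i) 0 := by rw [hJdef]; simp only; rw [hν, sub_self]
        rw [this]
        exact jordanBlock_zero_pow_eq_zero (by have := hcon i; omega)
      rw [hz, Matrix.zero_mulVec]
      rfl
    · have hu : IsUnit (J i ^ N).det := by
        rw [Matrix.det_pow, hJdef]
        simp only
        rw [jordanBlock_det, isUnit_iff_ne_zero]
        exact pow_ne_zero _ (pow_ne_zero _ (sub_ne_zero.2 hν))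
      have hwi : (fun b => w ⟨i, b⟩) = 0 := by
        have h3 : (J i ^ N) *ᵥ (fun b => w ⟨i, b⟩) = 0 := by
          funext b
          have h4 := congrFun hw0 ⟨i, b⟩
          have h5 : (Matrix.blockDiagonal' (fun i => J i ^ N) *ᵥ w) ⟨i, b⟩ =
              ((J i ^ N) *ᵥ fun b => w ⟨i, b⟩) b := by
            rw [Matrix.mulVec, dotProduct, Fintype.sum_sigma, Finset.sum_eq_single i]
            · rw [Matrix.mulVec, dotProduct]
              refine Finset.sum_congr rfl fun b _ => ?_
              rw [Matrix.blockDiagonal'_apply_eq]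
            · intro j _ hj
              refine Finset.sum_eq_zero fun b _ => ?_
              rw [Matrix.blockDiagonal'_apply_ne _ _ _ (Ne.symm hj), zero_mul]
            · intro h; exact absurd (Finset.mem_univ _) h
          rw [← h5, h4]
          rfl
        exact Matrix.eq_zero_of_mulVec_eq_zero (isUnit_iff_ne_zero.1 hu) h3
      rw [hbd, hwi, Matrix.mulVec_zero]
      rfl
  apply h1
  have h6 : Q *ᵥ (((B - ν • 1) ^ (N - 1)) *ᵥ v) = 0 := by
    rw [Matrix.mulVec_mulVec, hpow, ← Matrix.mulVec_mulVec]
    exact hw1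
  have h7 := congrArg (fun x => P *ᵥ x) h6
  simp only [Matrix.mulVec_mulVec, Matrix.mulVec_zero] at h7
  rw [← Matrix.mul_assoc, hPQ, Matrix.one_mul] at h7
  exact h7

end

end Helper114NB
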