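import Pool.Agent.Helper114_NB.Arith
import Pool.Agent.Helper114_NB.Jordan

set_option autoImplicit false

/-!
# Nonbacktracking matrices with large Jordan blocks: bouquets of cycles
-/

namespace Helper114NB

open PowerSeries Finset Matrix

noncomputable section

section Bouquet

variable {r : ℕ} (q : Fin r → ℕ) (e : ℕ)

/-- vertices of the bouquet: `q j + 2` vertices on the petal `j` besides the root `inr 0`, and `e`
isolated vertices -/
abbrev BV : Type := (Σ j : Fin r, Fin (q j + 2)) ⊕ Fin (e + 1)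

/-- adjacency -/
def badj : BV q e → BV q e → Prop
  | .inl ⟨j, i⟩, .inl ⟨j', i'⟩ => j = j' ∧ ((i' : ℕ) = i + 1 ∨ (i : ℕ) = i' + 1)
  | .inl ⟨j, i⟩, .inr t => t = 0 ∧ ((i : ℕ) = 0 ∨ (i : ℕ) = q j + 1)
  | .inr t, .inl ⟨j, i⟩ => t = 0 ∧ ((i : ℕ) = 0 ∨ (i : ℕ) = q j + 1)
  | .inr _, .inr _ => False

/-- the bouquet with petals of lengths `q j + 3` -/
def bouquet : SimpleGraph (BV q e) where
  Adj := badj q e
  symm := by
    constructor
    rintro (⟨j, i⟩ | t) (⟨j', i'⟩ | t') h
    · obtain ⟨rfl, h⟩ := h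
      exact ⟨rfl, h.symm⟩
    · exact h
    · exact h
    · exact h
  loopless := by
    constructor
    rintro (⟨j, i⟩ | t) h
    · obtain ⟨-, h⟩ := h
      omega
    · exact h

/-- the Jordan chain, as a power series -/
def FF (a : Fin r → ℚ⟦X⟧) : BV q e → BV q e → ℚ⟦X⟧
  | .inl ⟨j, i⟩, .inl ⟨_, i'⟩ =>
    if (i : ℕ) < i' then a j * lam ^ ((i : ℕ) + 1) else a j * lam ^ (q j + 2 - i)
  | .inl ⟨j, _⟩, .inr _ => a j * lam ^ (q j + 2)
  | .inr _, .inl ⟨j, _⟩ => a j
  | .inr _, .inr _ => 0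

open scoped Classical in
/-- the sum over the neighbours -/
def nsum (a : Fin r → ℚ⟦X⟧) (v : BV q e) : ℚ⟦X⟧ :=
  ∑ y, if badj q e v y then FF q e a v y else 0

theorem sum_fin_ite {n : ℕ} (m : ℕ) (x : ℚ⟦X⟧) :
    (∑ i : Fin n, if (i : ℕ) = m then x else 0) = if m < n then x else 0 := by
  split_ifs with h
  · rw [Finset.sum_eq_single (⟨m, h⟩ : Fin n)]
    · rw [if_pos rfl]
    · intro b _ hb
      rw [if_neg]
      intro h'
      exact hb (Fin.ext h')
    · intro h'; exact absurd (mem_univ _) h'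
  · refine Finset.sum_eq_zero fun b _ => ?_
    rw [if_neg]
    have := b.2
    omega

theorem nsum_inl (a : Fin r → ℚ⟦X⟧) (j : Fin r) (i : Fin (q j + 2)) :
    nsum q e a (.inl ⟨j, i⟩) = a j * lam ^ ((i : ℕ) + 1) + a j * lam ^ (q j + 2 - i) := by
  classical
  unfold nsum
  rw [Fintype.sum_sum_type, Fintype.sum_sigma, Finset.sum_eq_single j]
  · have h1 : ∀ i' : Fin (q j + 2),
        (if badj q e (.inl ⟨j, i⟩) (.inl ⟨j, i'⟩) then
          FF q e a (.inl ⟨j, i⟩) (.inl ⟨j, i'⟩) else 0) =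
        (if (i' : ℕ) = i + 1 then a j * lam ^ ((i : ℕ) + 1) else 0) +
          (if 1 ≤ (i : ℕ) then (if (i' : ℕ) = i - 1 then a j * lam ^ (q j + 2 - i) else 0)
            else 0) := by
      intro i'
      simp only [badj, FF, true_and]
      by_cases h1 : (i' : ℕ) = i + 1
      · have h2 : ¬ (i' : ℕ) = i - 1 := by omega
        rw [if_pos (Or.inl h1), if_pos (by omega), if_pos h1, if_neg h2]
        simp
      · by_cases h2 : (i : ℕ) = i' + 1
        · rw [if_pos (Or.inr h2), if_neg (by omega), if_neg h1, if_pos (by omega),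
            if_pos (by omega), zero_add]
        · rw [if_neg (by tauto), if_neg h1, zero_add]
          split_ifs with h3 h4
          · omega
          · rfl
          · rfl
    have h2 : ∀ t : Fin (e + 1),
        (if badj q e (.inl ⟨j, i⟩) (.inr t) then
          FF q e a (.inl ⟨j, i⟩) (.inr t) else 0) =
        if (t : ℕ) = 0 then (if ((i : ℕ) = 0 ∨ (i : ℕ) = q j + 1) then a j * lam ^ (q j + 2)
          else 0) else 0 := by
      intro t
      simp only [badj, FF]
      by_cases h1 : (t : ℕ) = 0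
      · have h1' : t = 0 := Fin.ext h1
        rw [if_pos h1]
        simp only [h1', true_and]
      · have h1' : ¬ t = 0 := fun h => h1 (by rw [h]; rfl)
        rw [if_neg h1, if_neg (fun h => h1' h.1)]
    simp only [h1, h2]
    rw [Finset.sum_add_distrib, sum_fin_ite, sum_fin_ite, if_pos (Nat.succ_pos e)]
    have hi := i.2
    have h3 : (∑ x : Fin (q j + 2), if 1 ≤ (i : ℕ) then
        (if (x : ℕ) = i - 1 then a j * lam ^ (q j + 2 - (i : ℕ)) else 0) else 0) =
        if 1 ≤ (i : ℕ) then a j * lam ^ (q j + 2 - (i : ℕ)) else 0 := by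
      split_ifs with h4
      · rw [sum_fin_ite, if_pos (by omega)]
      · exact Finset.sum_const_zero
    rw [h3]
    by_cases h4 : (i : ℕ) = 0
    · rw [if_pos (by omega), if_neg (by omega), if_pos (Or.inl h4), add_zero, h4, Nat.sub_zero]
    · by_cases h5 : (i : ℕ) = q j + 1
      · rw [if_neg (by omega), if_pos (by omega), if_pos (Or.inr h5), zero_add, h5]
        ring
      · rw [if_pos (by omega), if_pos (by omega), if_neg (by tauto), add_zero]
  · intro j' _ hj
    refine Finset.sum_eq_zero fun i' _ => ?_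
    rw [if_neg]
    rintro ⟨h, -⟩
    exact hj h.symm
  · intro h; exact absurd (mem_univ _) h

theorem nsum_root (a : Fin r → ℚ⟦X⟧) :
    nsum q e a (.inr 0) = ∑ j, C (2 : ℚ) * a j := by
  classical
  unfold nsum
  rw [Fintype.sum_sum_type, Fintype.sum_sigma]
  have h2 : ∑ t : Fin (e + 1), (if badj q e (.inr 0) (.inr t) then
      FF q e a (.inr 0) (.inr t) else 0) = 0 := Finset.sum_eq_zero fun t _ => if_neg (fun h => h)
  rw [h2, add_zero]
  refine Finset.sum_congr rfl fun j _ => ?_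
  have h1 : ∀ i : Fin (q j + 2), (if badj q e (.inr 0) (.inl ⟨j, i⟩) then
      FF q e a (.inr 0) (.inl ⟨j, i⟩) else 0) =
      (if (i : ℕ) = 0 then a j else 0) + (if (i : ℕ) = q j + 1 then a j else 0) := by
    intro i
    simp only [badj, FF, true_and]
    by_cases h3 : (i : ℕ) = 0
    · rw [if_pos (Or.inl h3), if_pos h3, if_neg (by omega), add_zero]
    · by_cases h4 : (i : ℕ) = q j + 1
      · rw [if_pos (Or.inr h4), if_neg h3, if_pos h4, zero_add]
      · rw [if_neg (by tauto), if_neg h3, if_neg h4, add_zero]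
  simp only [h1]
  rw [Finset.sum_add_distrib, sum_fin_ite, sum_fin_ite, if_pos (by omega), if_pos (by omega)]
  have h5 : (C (2 : ℚ) : ℚ⟦X⟧) = 2 := map_ofNat C 2
  rw [h5, two_mul]

theorem key {k : ℕ} {a : Fin r → ℚ⟦X⟧} (ha : ∀ j, a j * (1 + lam ^ (q j + 3)) = 1)
    (hz : X ^ k ∣ (∑ j, C (2 : ℚ) * a j) - 1) {u v : BV q e} (h : badj q e u v) :
    X ^ k ∣ nsum q e a v - FF q e a v u - lam * FF q e a u v := by
  rcases u with ⟨j, i⟩ | t <;> rcases v with ⟨j', i'⟩ | t'
  · obtain ⟨rfl, h⟩ := h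
    have hi := i.2
    have hi' := i'.2
    rw [nsum_inl]
    simp only [FF]
    rcases h with h | h
    · rw [if_neg (by omega), if_pos (by omega), h]
      have h0 : a j * lam ^ ((i : ℕ) + 1 + 1) + a j * lam ^ (q j + 2 - ((i : ℕ) + 1)) -
          a j * lam ^ (q j + 2 - ((i : ℕ) + 1)) - lam * (a j * lam ^ ((i : ℕ) + 1)) = 0 := by ring
      rw [h0]
      exact dvd_zero _
    · rw [if_pos (by omega), if_neg (by omega)]
      have h1 : q j + 2 - (i' : ℕ) = (q j + 2 - (i : ℕ)) + 1 := by omega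
      rw [h1]
      have h0 : a j * lam ^ ((i' : ℕ) + 1) + a j * lam ^ ((q j + 2 - (i : ℕ)) + 1) -
          a j * lam ^ ((i' : ℕ) + 1) - lam * (a j * lam ^ (q j + 2 - (i : ℕ))) = 0 := by ring
      rw [h0]
      exact dvd_zero _
  · obtain ⟨rfl, -⟩ := h
    rw [nsum_root]
    simp only [FF]
    have h0 : (∑ j, C (2 : ℚ) * a j) - a j - lam * (a j * lam ^ (q j + 2)) =
        (∑ j, C (2 : ℚ) * a j) - 1 := by
      linear_combination -(ha j)
    rw [h0]
    exact hz
  · obtain ⟨-, h⟩ := h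
    have hi' := i'.2
    rw [nsum_inl]
    simp only [FF]
    have h0 : a j' * lam ^ ((i' : ℕ) + 1) + a j' * lam ^ (q j' + 2 - (i' : ℕ)) -
        a j' * lam ^ (q j' + 2) - lam * a j' = 0 := by
      rcases h with h | h
      · rw [h, Nat.sub_zero]; ring
      · have h1 : q j' + 2 - (i' : ℕ) = 1 := by omega
        have h2 : (i' : ℕ) + 1 = q j' + 2 := by omega
        rw [h1, h2]; ring
    rw [h0]
    exact dvd_zero _
  · exact absurd h (fun h => h)

/-- no vertex has degree exactly one -/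
theorem two_neighbours {u v : BV q e} (h : badj q e u v) : ∃ w, w ≠ v ∧ badj q e u w := by
  rcases u with ⟨j, i⟩ | t
  · have hi := i.2
    -- the two neighbours of an inner vertex
    by_cases h0 : (i : ℕ) = 0
    · have n1 : badj q e (.inl ⟨j, i⟩) (.inr 0) := ⟨rfl, Or.inl h0⟩
      have n2 : badj q e (.inl ⟨j, i⟩) (.inl ⟨j, ⟨1, by omega⟩⟩) := ⟨rfl, Or.inl (by simp [h0])⟩
      by_cases hv : v = .inr 0
      · exact ⟨_, by rw [hv]; exact Sum.inl_ne_inr, n2⟩
      · exact ⟨_, Ne.symm hv, n1⟩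
    · by_cases h1 : (i : ℕ) = q j + 1
      · have n1 : badj q e (.inl ⟨j, i⟩) (.inr 0) := ⟨rfl, Or.inr h1⟩
        have n2 : badj q e (.inl ⟨j, i⟩) (.inl ⟨j, ⟨q j, by omega⟩⟩) := ⟨rfl, Or.inr h1⟩
        by_cases hv : v = .inr 0
        · exact ⟨_, by rw [hv]; exact Sum.inl_ne_inr, n2⟩
        · exact ⟨_, Ne.symm hv, n1⟩
      · have n1 : badj q e (.inl ⟨j, i⟩) (.inl ⟨j, ⟨i + 1, by omega⟩⟩) := ⟨rfl, Or.inl rfl⟩
        have n2 : badj q e (.inl ⟨j, i⟩) (.inl ⟨j, ⟨i - 1, by omega⟩⟩) :=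
          ⟨rfl, Or.inr (by simp only; omega)⟩
        by_cases hv : v = .inl ⟨j, ⟨i + 1, by omega⟩⟩
        · refine ⟨_, ?_, n2⟩
          rw [hv]
          intro h
          have h2 := Sum.inl.inj h
          simp only [Sigma.mk.injEq, heq_eq_eq, Fin.mk.injEq, true_and] at h2
          omega
        · exact ⟨_, Ne.symm hv, n1⟩
  · rcases v with ⟨j, i⟩ | t'
    · obtain ⟨rfl, -⟩ := h
      have n1 : badj q e (.inr 0) (.inl ⟨j, ⟨0, by omega⟩⟩) := ⟨rfl, Or.inl rfl⟩
      have n2 : badj q e (.inr 0) (.inl ⟨j, ⟨q j + 1, by omega⟩⟩) := ⟨rfl, Or.inr rfl⟩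
      by_cases hv : (i : ℕ) = 0
      · refine ⟨_, ?_, n2⟩
        intro h
        have h2 := Sum.inl.inj h
        simp only [Sigma.mk.injEq, heq_eq_eq, true_and] at h2
        have h3 := congrArg Fin.val h2
        simp only at h3
        omega
      · refine ⟨_, ?_, n1⟩
        intro h
        have h2 := Sum.inl.inj h
        simp only [Sigma.mk.injEq, heq_eq_eq, true_and] at h2
        have h3 := congrArg Fin.val h2
        simp only at h3
        omega
    · exact absurd h (fun h => h)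

end Bouquet

end

end Helper114NB
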