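import Pool.Agent.Helper114_NB.Graph

set_option autoImplicit false

/-!
# Nonbacktracking matrices with large Jordan blocks: the Jordan chain
-/

namespace Helper114NB

open PowerSeries Finset Matrix

noncomputable section

theorem sum_dart {V : Type} [Fintype V] [DecidableEq V] (G : SimpleGraph V) [DecidableRel G.Adj]
    (φ : V → V → ℂ) :
    ∑ d : G.Dart, φ d.fst d.snd = ∑ x, ∑ y, if G.Adj x y then φ x y else 0 := by
  rw [← Fintype.sum_prod_type' (f := fun x y => if G.Adj x y then φ x y else 0),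
    ← Finset.sum_filter]
  refine Finset.sum_bij (fun d _ => (d.fst, d.snd)) ?_ ?_ ?_ ?_
  · intro d _
    rw [mem_filter]
    exact ⟨mem_univ _, d.adj⟩
  · intro d _ d' _ h
    exact SimpleGraph.Dart.toProd_injective h
  · rintro ⟨x, y⟩ h
    rw [mem_filter] at h
    exact ⟨⟨(x, y), h.2⟩, mem_univ _, rfl⟩
  · intro d _
    rfl

theorem nb_mulVec {V : Type} [Fintype V] [DecidableEq V] (G : SimpleGraph V) [DecidableRel G.Adj]
    (g : V → V → ℂ) (d : G.Dart) :
    (nbMatrix G *ᵥ fun d' => g d'.fst d'.snd) d =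
      (∑ y, if G.Adj d.snd y then g d.snd y else 0) - g d.snd d.fst := by
  rw [Matrix.mulVec, dotProduct]
  have h := sum_dart G (fun x y => (if d.snd = x ∧ d.fst ≠ y then (1 : ℂ) else 0) * g x y)
  have h' : ∑ x : G.Dart, nbMatrix G d x * g x.fst x.snd = _ := h
  rw [h', Finset.sum_eq_single d.snd]
  · have h1 : ∀ y, (if G.Adj d.snd y then
        (if d.snd = d.snd ∧ d.fst ≠ y then (1 : ℂ) else 0) * g d.snd y else 0) =
        (if G.Adj d.snd y then g d.snd y else 0) - (if y = d.fst then g d.snd d.fst else 0) := by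
      intro y
      by_cases hy : y = d.fst
      · subst hy
        rw [if_pos d.adj.symm, if_neg (by simp), if_pos d.adj.symm, if_pos rfl]
        ring
      · rw [if_neg hy, sub_zero]
        split_ifs with h2 h3
        · ring
        · exact absurd ⟨rfl, Ne.symm hy⟩ h3
        · rfl
    rw [Finset.sum_congr rfl fun y _ => h1 y, Finset.sum_sub_distrib, Finset.sum_ite_eq' univ d.fst, if_pos (mem_univ _)]
  · intro x _ hx
    refine Finset.sum_eq_zero fun y _ => ?_
    have h2 : ¬ (d.snd = x ∧ d.fst ≠ y) := fun h => hx h.1.symm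
    rw [if_neg h2, zero_mul, ite_self]
  · intro h; exact absurd (mem_univ _) h

/-- a coefficient, as a complex number -/
def cc (m : ℕ) : ℚ⟦X⟧ →+ ℂ := (algebraMap ℚ ℂ).toAddMonoidHom.comp (coeff m).toAddMonoidHom

theorem cc_apply (m : ℕ) (f : ℚ⟦X⟧) : cc m f = algebraMap ℚ ℂ (coeff m f) := rfl

theorem cc_dvd {k m : ℕ} (hm : m < k) {f : ℚ⟦X⟧} (h : X ^ k ∣ f) : cc m f = 0 := by
  rw [cc_apply, X_pow_dvd_iff.1 h m hm, map_zero]

theorem cc_lam_succ (m : ℕ) (f : ℚ⟦X⟧) : cc (m + 1) (lam * f) = cc m f - 3 * cc (m + 1) f := by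
  rw [cc_apply, cc_apply, cc_apply]
  unfold lam
  rw [sub_mul, map_sub, coeff_succ_X_mul, coeff_C_mul, map_sub, map_mul]
  simp

theorem cc_lam_zero (f : ℚ⟦X⟧) : cc 0 (lam * f) = - 3 * cc 0 f := by
  rw [cc_apply, cc_apply]
  unfold lam
  rw [sub_mul, map_sub, coeff_zero_X_mul, coeff_C_mul, map_sub, map_mul]
  simp

/-- the Jordan chain on a copy of the bouquet -/
theorem chain_exists {r : ℕ} (q : Fin r → ℕ) (e : ℕ) {V : Type} [Fintype V] [DecidableEq V]
    (E : V ≃ BV q e) (G : SimpleGraph V) [DecidableRel G.Adj]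
    (hG : ∀ u v, G.Adj u v ↔ badj q e (E u) (E v)) {k : ℕ} (hk : 1 ≤ k) (hr : 1 ≤ r)
    {a : Fin r → ℚ⟦X⟧} (ha : ∀ j, a j * (1 + lam ^ (q j + 3)) = 1)
    (hz : X ^ k ∣ (∑ j, C (2 : ℚ) * a j) - 1) :
    ∃ x : G.Dart → ℂ, ((nbMatrix G - (-3 : ℂ) • 1) ^ k) *ᵥ x = 0 ∧
      ((nbMatrix G - (-3 : ℂ) • 1) ^ (k - 1)) *ᵥ x ≠ 0 := by
  classical
  set g : ℕ → V → V → ℂ := fun m u v => cc m (FF q e a (E u) (E v)) with hg
  set f : ℕ → G.Dart → ℂ := fun m d => g m d.fst d.snd with hf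
  have hB : ∀ m < k, ∀ d : G.Dart,
      (nbMatrix G *ᵥ f m) d = cc m (lam * FF q e a (E d.fst) (E d.snd)) := by
    intro m hm d
    have h1 : (nbMatrix G *ᵥ f m) d = _ := nb_mulVec G (g m) d
    have h2 := cc_dvd hm (key q e ha hz ((hG _ _).1 d.adj))
    rw [map_sub, map_sub, sub_eq_zero] at h2
    rw [h1, ← h2]
    congr 1
    unfold nsum
    rw [map_sum, ← Equiv.sum_comp E]
    refine Finset.sum_congr rfl fun y _ => ?_
    by_cases h3 : G.Adj d.snd y
    · rw [if_pos h3, if_pos ((hG _ _).1 h3)]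
    · rw [if_neg h3, if_neg (fun h => h3 ((hG _ _).2 h)), map_zero]
  have hS : ∀ m, m + 1 < k → (nbMatrix G - (-3 : ℂ) • 1) *ᵥ f (m + 1) = f m := by
    intro m hm
    funext d
    rw [Matrix.sub_mulVec, Matrix.smul_mulVec, Matrix.one_mulVec, Pi.sub_apply, hB _ hm,
      cc_lam_succ, Pi.smul_apply, smul_eq_mul]
    simp only [hf, hg]
    ring
  have hZ : (nbMatrix G - (-3 : ℂ) • 1) *ᵥ f 0 = 0 := by
    funext d
    rw [Matrix.sub_mulVec, Matrix.smul_mulVec, Matrix.one_mulVec, Pi.sub_apply,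
      hB _ (by omega), cc_lam_zero, Pi.smul_apply, smul_eq_mul, Pi.zero_apply]
    simp only [hf, hg]
    ring
  have hP : ∀ m, m < k → ((nbMatrix G - (-3 : ℂ) • 1) ^ m) *ᵥ f m = f 0 := by
    intro m
    induction m with
    | zero => intro _; rw [pow_zero, Matrix.one_mulVec]
    | succ m ih =>
      intro hm
      rw [pow_succ, ← Matrix.mulVec_mulVec, hS m hm, ih (by omega)]
  refine ⟨f (k - 1), ?_, ?_⟩
  · obtain ⟨k', rfl⟩ : ∃ k', k = k' + 1 := ⟨k - 1, by omega⟩
    rw [Nat.add_sub_cancel, pow_succ', ← Matrix.mulVec_mulVec, hP k' (by omega), hZ]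
  · rw [hP _ (by omega)]
    intro h0
    let j : Fin r := ⟨0, by omega⟩
    have hadj : G.Adj (E.symm (.inr 0)) (E.symm (.inl ⟨j, 0⟩)) := by
      rw [hG, Equiv.apply_symm_apply, Equiv.apply_symm_apply]
      exact ⟨rfl, Or.inl rfl⟩
    have h1 := congrFun h0 ⟨(_, _), hadj⟩
    simp only [hf, hg, Equiv.apply_symm_apply, FF, Pi.zero_apply] at h1
    rw [cc_apply, _root_.map_eq_zero] at h1
    have h2 := congrArg (constantCoeff (R := ℚ)) (ha j)
    rw [coeff_zero_eq_constantCoeff_apply] at h1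
    rw [map_mul, h1, zero_mul, map_one] at h2
    exact zero_ne_one h2

theorem main (N : ℕ) (hN : 1 ≤ N) :
    ∃ n₀ : ℕ, ∀ n, n₀ ≤ n → ∃ (G : SimpleGraph (Fin n)) (_ : DecidableRel G.Adj),
      (∀ v, G.degree v ≠ 1) ∧ (∃ u v, G.Adj u v) ∧
      ∃ x : G.Dart → ℂ, ((nbMatrix G - (-3 : ℂ) • 1) ^ N) *ᵥ x = 0 ∧
        ((nbMatrix G - (-3 : ℂ) • 1) ^ (N - 1)) *ᵥ x ≠ 0 := by
  classical
  obtain ⟨L, hL, hdvd⟩ := exists_list N
  set r := L.length with hr
  set q : Fin r → ℕ := fun j => L[j.1] - 3 with hq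
  have hq3 : ∀ j : Fin r, q j + 3 = L[j.1] := fun j => by
    have := hL L[j.1] (List.getElem_mem _)
    simp only [hq]
    omega
  set a : Fin r → ℚ⟦X⟧ := fun j => gg (q j + 3) with haa
  have ha : ∀ j, a j * (1 + lam ^ (q j + 3)) = 1 := fun j => by
    rw [mul_comm]
    exact gg_mul (l := q j + 3) (Nat.succ_ne_zero _)
  have hz : X ^ N ∣ (∑ j, C (2 : ℚ) * a j) - 1 := by
    have h1 : (∑ j, C (2 : ℚ) * a j) = (L.map bb).sum := by
      rw [← Fin.sum_univ_fun_getElem L bb]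
      refine Finset.sum_congr rfl fun j _ => ?_
      simp only [haa]
      rw [hq3 j]
      rfl
    rw [h1]
    exact hdvd
  have hr1 : 1 ≤ r := by
    by_contra h
    have h3 : r = 0 := by omega
    have h0 : L = [] := List.eq_nil_of_length_eq_zero h3
    rw [h0, List.map_nil, List.sum_nil, zero_sub] at hdvd
    have h1 := (X_pow_dvd_iff.1 hdvd) 0 (by omega)
    rw [map_neg, coeff_zero_one] at h1
    norm_num at h1
  refine ⟨∑ j, (q j + 2) + 1, fun n hn => ?_⟩
  set e := n - (∑ j, (q j + 2) + 1) with he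
  have hcard : Fintype.card (BV q e) = n := by
    rw [Fintype.card_sum, Fintype.card_sigma, Fintype.card_fin]
    simp only [Fintype.card_fin]
    omega
  let E : Fin n ≃ BV q e := (Fintype.equivFinOfCardEq hcard).symm
  let G : SimpleGraph (Fin n) := (bouquet q e).comap E
  have hG : ∀ u v, G.Adj u v ↔ badj q e (E u) (E v) := fun u v => Iff.rfl
  refine ⟨G, Classical.decRel _, ?_, ?_, ?_⟩
  · intro v hv
    obtain ⟨w, hw, huniq⟩ := SimpleGraph.degree_eq_one_iff_existsUnique_adj.1 hv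
    obtain ⟨w', hw', hadj⟩ := two_neighbours q e ((hG _ _).1 hw)
    have hadj' : G.Adj v (E.symm w') := by
      rw [hG, Equiv.apply_symm_apply]
      exact hadj
    have h1 := huniq (E.symm w') hadj'
    apply hw'
    rw [← h1, Equiv.apply_symm_apply]
  · refine ⟨E.symm (.inr 0), E.symm (.inl ⟨⟨0, by omega⟩, 0⟩), ?_⟩
    rw [hG, Equiv.apply_symm_apply, Equiv.apply_symm_apply]
    exact ⟨rfl, Or.inl rfl⟩
  · let _ : DecidableRel G.Adj := Classical.decRel _
    exact chain_exists q e E G hG hN hr1 ha hz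

end

end Helper114NB
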