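import Mathlib

set_option autoImplicit false

/-!
# Nonbacktracking matrices with large Jordan blocks: estimates

The series `lam = X - 3`, the series `bb l = 2 / (1 + lam ^ l)` and a submultiplicative seminorm.
-/

namespace Helper114NB

open PowerSeries Finset Filter Topology

noncomputable section

/-- the series `X - 3` -/
def lam : ℚ⟦X⟧ := X - C (3 : ℚ)

/-- `1 / (1 + lam ^ l)` -/
def gg (l : ℕ) : ℚ⟦X⟧ := (1 + lam ^ l)⁻¹

/-- sum of the absolute values of the first `k` coefficients -/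
def nk (k : ℕ) (p : ℚ⟦X⟧) : ℚ := ∑ j ∈ range k, |coeff j p|

theorem nk_nonneg (k : ℕ) (p : ℚ⟦X⟧) : 0 ≤ nk k p := Finset.sum_nonneg fun _ _ => abs_nonneg _

theorem nk_coeff {k j : ℕ} (hj : j < k) (p : ℚ⟦X⟧) : |coeff j p| ≤ nk k p :=
  Finset.single_le_sum (f := fun j => |coeff j p|) (fun _ _ => abs_nonneg _) (mem_range.2 hj)

theorem nk_add (k : ℕ) (p q : ℚ⟦X⟧) : nk k (p + q) ≤ nk k p + nk k q := by
  unfold nk
  rw [← Finset.sum_add_distrib]
  exact Finset.sum_le_sum fun j _ => by rw [map_add]; exact abs_add_le _ _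

theorem nk_neg (k : ℕ) (p : ℚ⟦X⟧) : nk k (-p) = nk k p := by
  unfold nk
  exact Finset.sum_congr rfl fun j _ => by rw [map_neg, abs_neg]

theorem nk_sub (k : ℕ) (p q : ℚ⟦X⟧) : nk k (p - q) ≤ nk k p + nk k q := by
  rw [sub_eq_add_neg, ← nk_neg k q]
  exact nk_add _ _ _

theorem nk_mul (k : ℕ) (p q : ℚ⟦X⟧) : nk k (p * q) ≤ nk k p * nk k q := by
  unfold nk
  have h1 : ∑ j ∈ range k, |coeff j (p * q)| ≤
      ∑ j ∈ range k, ∑ x ∈ antidiagonal j, |coeff x.1 p| * |coeff x.2 q| := by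
    refine Finset.sum_le_sum fun j _ => ?_
    rw [coeff_mul]
    refine (Finset.abs_sum_le_sum_abs _ _).trans ?_
    exact Finset.sum_le_sum fun x _ => by rw [abs_mul]
  refine h1.trans ?_
  rw [Finset.sum_mul_sum, ← Finset.sum_product', Finset.sum_sigma']
  have h2 : ∑ x ∈ (range k).sigma fun j => antidiagonal j, |coeff x.2.1 p| * |coeff x.2.2 q| =
      ∑ y ∈ ((range k).sigma fun j => antidiagonal j).image (fun x => x.2),
        |coeff y.1 p| * |coeff y.2 q| := by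
    rw [Finset.sum_image]
    rintro ⟨a, x⟩ hx ⟨b, y⟩ hy hxy
    simp only [Finset.coe_sigma, Set.mem_sigma_iff, Finset.mem_coe, HasAntidiagonal.mem_antidiagonal] at hx hy
    simp only at hxy
    subst hxy
    have : a = b := by rw [← hx.2, ← hy.2]
    subst this
    rfl
  rw [h2]
  refine Finset.sum_le_sum_of_subset_of_nonneg ?_ fun _ _ _ => by positivity
  intro y hy
  rw [Finset.mem_image] at hy
  obtain ⟨⟨a, x⟩, hx, rfl⟩ := hy
  rw [Finset.mem_sigma, mem_range, HasAntidiagonal.mem_antidiagonal] at hx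
  rw [Finset.mem_product, mem_range, mem_range]
  simp only at hx ⊢
  omega

theorem nk_one (k : ℕ) : nk k 1 ≤ 1 := by
  unfold nk
  calc ∑ j ∈ range k, |coeff j (1 : ℚ⟦X⟧)| = ∑ j ∈ range k, if j = 0 then (1:ℚ) else 0 := by
        refine Finset.sum_congr rfl fun j _ => ?_
        rw [coeff_one]
        split_ifs <;> simp
    _ ≤ 1 := by
        rw [Finset.sum_ite_eq']
        split_ifs <;> norm_num

theorem nk_pow (k : ℕ) (p : ℚ⟦X⟧) (m : ℕ) : nk k (p ^ m) ≤ nk k p ^ m := by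
  induction m with
  | zero => simpa using nk_one k
  | succ m ih =>
    rw [pow_succ, pow_succ]
    exact (nk_mul _ _ _).trans (mul_le_mul_of_nonneg_right ih (nk_nonneg _ _))

theorem nk_X_mul (k : ℕ) (p : ℚ⟦X⟧) : nk k (X * p) ≤ nk k p := by
  unfold nk
  cases k with
  | zero => simp
  | succ k =>
    rw [Finset.sum_range_succ', Finset.sum_range_succ]
    have h1 : ∀ j, coeff (j + 1) ((X : ℚ⟦X⟧) * p) = coeff j p := fun j => coeff_succ_X_mul j p
    simp only [h1]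
    have h2 : coeff 0 ((X : ℚ⟦X⟧) * p) = 0 := by simp
    rw [h2]
    have := abs_nonneg (coeff k p)
    simp only [abs_zero, add_zero]
    linarith

theorem const_lam : constantCoeff lam = (-3 : ℚ) := by
  unfold lam; simp

theorem lam_ne : constantCoeff lam ≠ 0 := by rw [const_lam]; norm_num

theorem one_add_lam_ne {l : ℕ} (hl : l ≠ 0) : constantCoeff (1 + lam ^ l) ≠ (0 : ℚ) := by
  rw [map_add, map_pow, const_lam, map_one]
  intro h
  have h1 : |((-3 : ℚ)) ^ l| = 1 := by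
    have : ((-3 : ℚ)) ^ l = -1 := by linarith
    rw [this]; norm_num
  rw [abs_pow, abs_neg, abs_of_pos (by norm_num : (0:ℚ) < 3)] at h1
  have h2 : (3:ℚ) ^ 1 ≤ 3 ^ l := pow_le_pow_right₀ (by norm_num) (Nat.one_le_iff_ne_zero.2 hl)
  linarith

theorem gg_mul {l : ℕ} (hl : l ≠ 0) : (1 + lam ^ l) * gg l = 1 :=
  PowerSeries.mul_inv_cancel _ (one_add_lam_ne hl)

theorem lam_mul_inv : lam * lam⁻¹ = 1 := PowerSeries.mul_inv_cancel _ lam_ne

theorem lam_isUnit : IsUnit lam := IsUnit.of_mul_eq_one _ lam_mul_inv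

theorem nk_lam_inv (k : ℕ) : nk k lam⁻¹ ≤ 1 / 2 := by
  have h1 : C (3 : ℚ) * lam⁻¹ = X * lam⁻¹ - 1 := by
    have h := lam_mul_inv
    unfold lam at h ⊢
    linear_combination -h
  have h2 : nk k (C (3 : ℚ) * lam⁻¹) = 3 * nk k lam⁻¹ := by
    unfold nk
    rw [Finset.mul_sum]
    refine Finset.sum_congr rfl fun j _ => ?_
    rw [coeff_C_mul, abs_mul, abs_of_pos (by norm_num : (0:ℚ) < 3)]
  have h3 := nk_sub k (X * lam⁻¹) 1
  rw [← h1, h2] at h3
  have h4 := nk_X_mul k lam⁻¹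
  have h5 := nk_one k
  linarith

theorem nk_gg (k l : ℕ) (hl : l ≠ 0) : nk k (gg l) ≤ 2 * (1 / 2) ^ l := by
  have h1 : gg l = (lam⁻¹) ^ l - (lam⁻¹) ^ l * gg l := by
    have h := gg_mul hl
    have h2 : lam⁻¹ ^ l * lam ^ l = 1 := by
      rw [← mul_pow, mul_comm, lam_mul_inv, one_pow]
    linear_combination lam⁻¹ ^ l * h - gg l * h2
  have h2 : nk k ((lam⁻¹) ^ l) ≤ (1 / 2) ^ l :=
    (nk_pow k _ l).trans (pow_le_pow_left₀ (nk_nonneg _ _) (nk_lam_inv k) l)
  have h3 : nk k (gg l) ≤ nk k ((lam⁻¹) ^ l) + nk k ((lam⁻¹) ^ l) * nk k (gg l) := by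
    calc nk k (gg l) = nk k ((lam⁻¹) ^ l - (lam⁻¹) ^ l * gg l) := by rw [← h1]
      _ ≤ _ := (nk_sub _ _ _).trans (by linarith [nk_mul k ((lam⁻¹) ^ l) (gg l)])
  have h4 : ((1:ℚ) / 2) ^ l ≤ 1 / 2 := by
    calc ((1:ℚ) / 2) ^ l ≤ (1 / 2) ^ 1 :=
          pow_le_pow_of_le_one (by norm_num) (by norm_num) (Nat.one_le_iff_ne_zero.2 hl)
      _ = 1 / 2 := by norm_num
  have h5 := nk_nonneg k (gg l)
  nlinarith

/-- the coefficients of `p / (1 + lam ^ l)` tend to `0` -/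
theorem tendsto_coeff_gg (p : ℚ⟦X⟧) (j : ℕ) (u : ℕ → ℕ) (hu : Tendsto u atTop atTop) :
    Tendsto (fun n => coeff j (p * gg (u n))) atTop (𝓝 0) := by
  have h1 : Tendsto (fun n => nk (j + 1) p * (2 * ((1:ℚ) / 2) ^ (u n))) atTop (𝓝 0) := by
    have h2 : Tendsto (fun n => ((1:ℚ) / 2) ^ (u n)) atTop (𝓝 0) := by
      have := tendsto_pow_atTop_nhds_zero_of_lt_one (r := ((1:ℚ) / 2)) (by norm_num) (by norm_num)
      exact this.comp hu
    have h3 := (h2.const_mul 2).const_mul (nk (j + 1) p)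
    simpa using h3
  have h4 : ∀ᶠ n in atTop, |coeff j (p * gg (u n))| ≤
      nk (j + 1) p * (2 * (1 / 2) ^ (u n)) := by
    filter_upwards [hu.eventually_ge_atTop 1] with n hn
    exact (nk_coeff (Nat.lt_succ_self j) _).trans ((nk_mul _ _ _).trans
      (mul_le_mul_of_nonneg_left (nk_gg _ _ (by omega)) (nk_nonneg _ _)))
  have h5 := h1.neg
  rw [neg_zero] at h5
  refine tendsto_of_tendsto_of_tendsto_of_le_of_le' h5 h1 ?_ ?_
  · filter_upwards [h4] with n hn using (abs_le.1 hn).1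
  · filter_upwards [h4] with n hn using (abs_le.1 hn).2

end

end Helper114NB
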