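import Pool.Agent.Helper114_NB.Norm

set_option autoImplicit false

/-!
# Nonbacktracking matrices with large Jordan blocks: a positive relation
-/

namespace Helper114NB

open PowerSeries Finset Filter Topology

noncomputable section

/-- `2 / (1 + lam ^ l)` -/
def bb (l : ℕ) : ℚ⟦X⟧ := C (2 : ℚ) * gg l

/-- the matrix of the coefficients of `lam ^ i * (1 - gg (N + k - i))` -/
def AA (k N : ℕ) : Matrix (Fin k) (Fin k) ℚ := fun j i =>
  coeff (j : ℕ) (lam ^ (i : ℕ) * (1 - gg (N + k - i)))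

/-- the coefficients of `- lam ^ k * (1 - gg N)` -/
def tt (k N : ℕ) : Fin k → ℚ := fun j => coeff (j : ℕ) (-(lam ^ k * (1 - gg N)))

def AL (k : ℕ) : Matrix (Fin k) (Fin k) ℚ := fun j i => coeff (j : ℕ) (lam ^ (i : ℕ))

def tL (k : ℕ) : Fin k → ℚ := fun j => coeff (j : ℕ) (-(lam ^ k))

def xL (k : ℕ) : Fin k → ℚ := fun i => (k.choose (i : ℕ) : ℚ) * 3 ^ (k - i)

theorem lam_pow_coe (n : ℕ) : lam ^ n =
    (((Polynomial.X + Polynomial.C (-3 : ℚ)) ^ n : Polynomial ℚ) : ℚ⟦X⟧) := by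
  unfold lam
  rw [Polynomial.coe_pow]
  congr 1
  rw [Polynomial.coe_add, Polynomial.coe_X, Polynomial.coe_C, map_neg, sub_eq_add_neg]

theorem coeff_lam_pow (n j : ℕ) : coeff j (lam ^ n) = (-3 : ℚ) ^ (n - j) * (n.choose j : ℚ) := by
  rw [lam_pow_coe, Polynomial.coeff_coe, Polynomial.coeff_X_add_C_pow]

theorem det_AL (k : ℕ) : (AL k).det = 1 := by
  rw [Matrix.det_of_isUpperTriangular]
  · refine Finset.prod_eq_one fun i _ => ?_
    unfold AL
    rw [coeff_lam_pow]
    simp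
  · intro j i hij
    simp only [id_eq] at hij
    unfold AL
    rw [coeff_lam_pow, Nat.choose_eq_zero_of_lt (by exact_mod_cast hij)]
    simp

theorem AL_xL (k : ℕ) : (AL k).mulVec (xL k) = tL k := by
  funext j
  unfold Matrix.mulVec dotProduct AL xL tL
  have h : (X : ℚ⟦X⟧) ^ k = ∑ i ∈ range (k + 1), lam ^ i * C ((3 : ℚ) ^ (k - i) * (k.choose i : ℚ)) := by
    have h1 : (X : ℚ⟦X⟧) = lam + C (3 : ℚ) := by unfold lam; ring
    have h2 := add_pow lam (C (3 : ℚ)) k
    rw [← h1] at h2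
    rw [h2]
    refine Finset.sum_congr rfl fun i _ => ?_
    rw [map_mul, map_pow, map_natCast]
    ring
  have h3 : coeff (j : ℕ) ((X : ℚ⟦X⟧) ^ k) = 0 := by
    rw [coeff_X_pow, if_neg (by have := j.2; omega)]
  rw [h, map_sum, Finset.sum_range_succ] at h3
  simp only [coeff_mul_C] at h3
  rw [← Fin.sum_univ_eq_sum_range (fun i => coeff (j : ℕ) (lam ^ i) *
    ((3 : ℚ) ^ (k - i) * (k.choose i : ℚ))) k] at h3
  rw [map_neg]
  have h4 : ∑ x : Fin k, coeff (j : ℕ) (lam ^ (x : ℕ)) * ((k.choose (x : ℕ) : ℚ) * 3 ^ (k - (x : ℕ))) =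
      ∑ x : Fin k, coeff (j : ℕ) (lam ^ (x : ℕ)) * ((3 : ℚ) ^ (k - (x : ℕ)) * (k.choose (x : ℕ) : ℚ)) :=
    Finset.sum_congr rfl fun i _ => by ring
  rw [h4]
  simp only [Nat.sub_self, pow_zero, Nat.choose_self, Nat.cast_one, mul_one] at h3
  linarith

theorem cramer_AL (k : ℕ) : (AL k).cramer (tL k) = xL k := by
  rw [Matrix.cramer_eq_adjugate_mulVec, ← AL_xL, Matrix.mulVec_mulVec, Matrix.adjugate_mul, det_AL,
    one_smul, Matrix.one_mulVec]

theorem tendsto_AA (k : ℕ) : Tendsto (fun N => AA k N) atTop (𝓝 (AL k)) := by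
  refine tendsto_pi_nhds.2 fun j => tendsto_pi_nhds.2 fun i => ?_
  have h1 : Tendsto (fun N => coeff (j : ℕ) (lam ^ (i : ℕ) * gg (N + k - i))) atTop (𝓝 0) :=
    tendsto_coeff_gg _ _ _ (by
      refine tendsto_atTop_mono (fun N => ?_) tendsto_id
      have := i.2
      simp only [id_eq]
      omega)
  have h2 := (tendsto_const_nhds (x := coeff (j : ℕ) (lam ^ (i : ℕ)))).sub h1
  rw [sub_zero] at h2
  refine h2.congr fun N => ?_
  unfold AA
  rw [mul_sub, mul_one, map_sub]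

theorem tendsto_tt (k : ℕ) : Tendsto (fun N => tt k N) atTop (𝓝 (tL k)) := by
  refine tendsto_pi_nhds.2 fun j => ?_
  have h1 : Tendsto (fun N => coeff (j : ℕ) (lam ^ k * gg N)) atTop (𝓝 0) :=
    tendsto_coeff_gg _ _ _ tendsto_id
  have h2 := (tendsto_const_nhds (x := coeff (j : ℕ) (-(lam ^ k)))).add h1
  rw [add_zero] at h2
  refine h2.congr fun N => ?_
  unfold tt
  rw [← map_add]
  congr 1
  ring

theorem eventually_pos (k : ℕ) : ∀ᶠ N in atTop, 0 < (AA k N).det ∧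
    ∀ i, 0 < (AA k N).cramer (tt k N) i := by
  have h1 : Tendsto (fun N => (AA k N).det) atTop (𝓝 1) := by
    have h := (continuous_id.matrix_det (n := Fin k) (R := ℚ)).tendsto (AL k)
    rw [id_eq, det_AL] at h
    exact h.comp (tendsto_AA k)
  have h2 : ∀ i, Tendsto (fun N => (AA k N).cramer (tt k N) i) atTop (𝓝 (xL k i)) := by
    intro i
    have hc : Continuous fun z : Matrix (Fin k) (Fin k) ℚ × (Fin k → ℚ) =>
        (z.1.updateCol i z.2).det :=
      (Continuous.matrix_updateCol i continuous_fst continuous_snd).matrix_det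
    have h := hc.tendsto (AL k, tL k)
    simp only at h
    rw [← Matrix.cramer_apply, cramer_AL] at h
    have h3 := h.comp ((tendsto_AA k).prodMk_nhds (tendsto_tt k))
    refine h3.congr fun N => ?_
    simp only [Function.comp_apply, Matrix.cramer_apply]
  have h3 : ∀ i, 0 < xL k i := by
    intro i
    unfold xL
    have : 0 < k.choose (i : ℕ) := Nat.choose_pos (by have := i.2; omega)
    positivity
  exact (h1.eventually_const_lt one_pos).and
    (eventually_all.2 fun i => (h2 i).eventually_const_lt (h3 i))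

/-- multiplication by a power of `lam` does not change divisibility by `X ^ k` -/
theorem X_pow_dvd_lam_mul {k n : ℕ} {y : ℚ⟦X⟧} (h : X ^ k ∣ lam ^ n * y) : X ^ k ∣ y :=
  (IsUnit.dvd_mul_left (lam_isUnit.pow n)).1 h

theorem lam_bb {l n : ℕ} (hl : l ≠ 0) (hn : l ≤ n) :
    lam ^ n * bb l = C (2 : ℚ) * (lam ^ (n - l) * (1 - gg l)) := by
  have h := gg_mul hl
  have h2 : lam ^ n = lam ^ (n - l) * lam ^ l := by
    rw [← pow_add]; congr 1; omega
  unfold bb
  rw [h2]
  linear_combination C (2 : ℚ) * lam ^ (n - l) * h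

theorem X_pow_dvd_of_coeff {k : ℕ} {y : ℚ⟦X⟧} (h : ∀ j : Fin k, coeff (j : ℕ) y = 0) :
    X ^ k ∣ y := X_pow_dvd_iff.2 fun m hm => h ⟨m, hm⟩

/-- The positive relation and the spanning property. -/
theorem relation (k : ℕ) : ∃ N : ℕ, 3 ≤ N ∧ ∃ (c : Fin k → ℚ) (c₀ : ℚ), 0 < c₀ ∧ (∀ i, 0 < c i) ∧
    X ^ k ∣ ∑ i, C (c i) * bb (N + k - i) + C c₀ * bb N ∧
    ∀ y : ℚ⟦X⟧, ∃ x : Fin k → ℚ, X ^ k ∣ ∑ i, C (x i) * bb (N + k - i) - y := by
  obtain ⟨N, ⟨hdet, hcr⟩, hN⟩ := ((eventually_pos k).and (eventually_ge_atTop 3)).exists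
  have key : ∀ x : Fin k → ℚ, ∀ j : Fin k,
      coeff (j : ℕ) (lam ^ (N + k) * ∑ i, C (x i) * bb (N + k - i)) =
        2 * (AA k N).mulVec x j := by
    intro x j
    rw [Finset.mul_sum, map_sum]
    unfold Matrix.mulVec dotProduct
    rw [Finset.mul_sum]
    refine Finset.sum_congr rfl fun i _ => ?_
    have hi := i.2
    rw [mul_left_comm, lam_bb (by omega) (by omega), coeff_C_mul, coeff_C_mul]
    have : N + k - (N + k - (i : ℕ)) = i := by omega
    rw [this]
    unfold AA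
    ring
  refine ⟨N, hN, (AA k N).cramer (tt k N), (AA k N).det, hdet, hcr, ?_, ?_⟩
  · refine X_pow_dvd_lam_mul (n := N + k) (X_pow_dvd_of_coeff fun j => ?_)
    rw [mul_add, map_add, key, Matrix.mulVec_cramer, mul_left_comm, lam_bb (by omega) (by omega),
      coeff_C_mul, coeff_C_mul]
    have : N + k - N = k := by omega
    rw [this, Pi.smul_apply]
    unfold tt
    rw [map_neg, smul_eq_mul]
    ring
  · intro y
    have hu : IsUnit (AA k N).det := isUnit_iff_ne_zero.2 hdet.ne'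
    let v : Fin k → ℚ := fun j => coeff (j : ℕ) (lam ^ (N + k) * y) / 2
    refine ⟨(AA k N)⁻¹.mulVec v, X_pow_dvd_lam_mul (n := N + k) (X_pow_dvd_of_coeff fun j => ?_)⟩
    rw [mul_sub, map_sub, key, Matrix.mulVec_mulVec, Matrix.mul_nonsing_inv _ hu,
      Matrix.one_mulVec]
    simp only [v]
    ring

end

end Helper114NB
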