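import Pool.Agent.Helper114_NB.Pos

set_option autoImplicit false

/-!
# Nonbacktracking matrices with large Jordan blocks: the semigroup generated by the series `bb l`
-/

namespace Helper114NB

open PowerSeries Finset

noncomputable section

/-- sums of series `bb l`, `l ≥ 3`, up to multiples of `X ^ k` -/
def SS (k : ℕ) : AddSubmonoid ℚ⟦X⟧ where
  carrier := {y | ∃ s ∈ AddSubmonoid.closure {z : ℚ⟦X⟧ | ∃ l, 3 ≤ l ∧ z = bb l}, X ^ k ∣ y - s}
  zero_mem' := ⟨0, AddSubmonoid.zero_mem _, by simp⟩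
  add_mem' := by
    rintro a b ⟨s, hs, h1⟩ ⟨t, ht, h2⟩
    refine ⟨s + t, AddSubmonoid.add_mem _ hs ht, ?_⟩
    have := dvd_add h1 h2
    convert this using 1
    ring

theorem bb_mem (k : ℕ) {l : ℕ} (hl : 3 ≤ l) : bb l ∈ SS k :=
  ⟨bb l, AddSubmonoid.subset_closure ⟨l, hl, rfl⟩, by simp⟩

theorem mem_congr {k : ℕ} {a b : ℚ⟦X⟧} (hb : b ∈ SS k) (h : X ^ k ∣ a - b) : a ∈ SS k := by
  obtain ⟨s, hs, h1⟩ := hb
  refine ⟨s, hs, ?_⟩
  have := dvd_add h h1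
  convert this using 1
  ring

/-- some multiple is in the semigroup -/
def Mul (k : ℕ) (y : ℚ⟦X⟧) : Prop := ∃ D : ℕ, 1 ≤ D ∧ D • y ∈ SS k

theorem Mul.add {k : ℕ} {a b : ℚ⟦X⟧} (ha : Mul k a) (hb : Mul k b) : Mul k (a + b) := by
  obtain ⟨D, hD, h1⟩ := ha
  obtain ⟨E, hE, h2⟩ := hb
  refine ⟨D * E, Nat.mul_pos hD hE, ?_⟩
  have h3 : (D * E) • (a + b) = E • (D • a) + D • (E • b) := by
    simp only [nsmul_eq_mul]
    push_cast
    ring
  rw [h3]
  exact AddSubmonoid.add_mem _ (AddSubmonoid.nsmul_mem _ h1 _) (AddSubmonoid.nsmul_mem _ h2 _)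

theorem Mul.smul {k : ℕ} {a : ℚ⟦X⟧} (ha : Mul k a) {r : ℚ} (hr : 0 ≤ r) : Mul k (C r * a) := by
  obtain ⟨D, hD, h1⟩ := ha
  refine ⟨r.den * D, Nat.mul_pos r.pos hD, ?_⟩
  have h3 : (r.den * D) • (C r * a) = r.num.toNat • (D • a) := by
    simp only [nsmul_eq_mul]
    have h4 : ((r.den : ℕ) : ℚ⟦X⟧) * C r = ((r.num.toNat : ℕ) : ℚ⟦X⟧) := by
      have h5 : ((r.den : ℕ) : ℚ) * r = ((r.num.toNat : ℕ) : ℚ) := by
        have h6 : ((r.num.toNat : ℕ) : ℤ) = r.num := Int.toNat_of_nonneg (Rat.num_nonneg.2 hr)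
        have h7 : ((r.num.toNat : ℕ) : ℚ) = (r.num : ℚ) := by exact_mod_cast h6
        rw [h7, mul_comm]
        exact Rat.mul_den_eq_num r
      have h8 := congrArg (C (R := ℚ)) h5
      rw [map_mul, map_natCast, map_natCast] at h8
      exact h8
    push_cast
    linear_combination (D : ℚ⟦X⟧) * a * h4
  rw [h3]
  exact AddSubmonoid.nsmul_mem _ h1 _

theorem Mul.sum {k : ℕ} {ι : Type} (s : Finset ι) (f : ι → ℚ⟦X⟧) (h : ∀ i ∈ s, Mul k (f i)) :
    Mul k (∑ i ∈ s, f i) := by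
  classical
  induction s using Finset.induction_on with
  | empty => exact ⟨1, le_rfl, by simp⟩
  | insert a s ha ih =>
    rw [Finset.sum_insert ha]
    exact (h a (Finset.mem_insert_self a s)).add (ih fun i hi => h i (Finset.mem_insert_of_mem hi))

theorem mul_all (k : ℕ) (y : ℚ⟦X⟧) : Mul k y := by
  obtain ⟨N, hN, c, c₀, hc₀, hc, hrel, hspan⟩ := relation k
  obtain ⟨x, hx⟩ := hspan y
  -- a common multiple of the relation
  let T : ℚ := ∑ i, |x i| / c i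
  have hT0 : 0 ≤ T := Finset.sum_nonneg fun i _ => div_nonneg (abs_nonneg _) (hc i).le
  have hT : ∀ i, 0 ≤ x i + T * c i := by
    intro i
    have h1 : |x i| / c i ≤ T :=
      Finset.single_le_sum (f := fun i => |x i| / c i)
        (fun i _ => div_nonneg (abs_nonneg _) (hc i).le) (mem_univ i)
    have h2 : |x i| ≤ T * c i := (div_le_iff₀ (hc i)).1 h1
    have h3 := neg_abs_le (x i)
    linarith
  have hm : Mul k (∑ i : Fin k, C (x i + T * c i) * bb (N + k - i) + C (T * c₀) * bb N) := by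
    refine Mul.add (Mul.sum _ _ fun i _ => Mul.smul ⟨1, le_rfl, ?_⟩ (hT i))
      (Mul.smul ⟨1, le_rfl, ?_⟩ (by positivity))
    · rw [one_nsmul]; exact bb_mem k (by have := i.2; omega)
    · rw [one_nsmul]; exact bb_mem k hN
  obtain ⟨D, hD, h1⟩ := hm
  refine ⟨D, hD, mem_congr h1 ?_⟩
  rw [← nsmul_sub, nsmul_eq_mul]
  refine Dvd.dvd.mul_left ?_ _
  have h2 := dvd_add hx (Dvd.dvd.mul_left hrel (C T))
  rw [← dvd_neg]
  convert h2 using 1
  rw [mul_add, Finset.mul_sum]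
  have h3 : ∑ i : Fin k, C (x i + T * c i) * bb (N + k - i) =
      ∑ i : Fin k, C (x i) * bb (N + k - i) + ∑ i : Fin k, C T * (C (c i) * bb (N + k - i)) := by
    rw [← Finset.sum_add_distrib]
    refine Finset.sum_congr rfl fun i _ => ?_
    rw [map_add, map_mul]
    ring
  rw [h3, map_mul]
  ring

theorem neg_mem {k : ℕ} {s : ℚ⟦X⟧} (hs : s ∈ SS k) : -s ∈ SS k := by
  obtain ⟨D, hD, h⟩ := mul_all k (-s)
  have h1 : -s = D • (-s) + (D - 1) • s := by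
    obtain ⟨E, rfl⟩ : ∃ E, D = E + 1 := ⟨D - 1, by omega⟩
    simp only [nsmul_eq_mul, Nat.add_sub_cancel]
    push_cast
    ring
  rw [h1]
  exact AddSubmonoid.add_mem _ h (AddSubmonoid.nsmul_mem _ hs _)

/-- the group -/
def GG (k : ℕ) : AddSubgroup ℚ⟦X⟧ where
  toAddSubmonoid := SS k
  neg_mem' := neg_mem

theorem mem_GG {k : ℕ} {y : ℚ⟦X⟧} : y ∈ GG k ↔ y ∈ SS k := Iff.rfl

theorem congr_GG {k : ℕ} {a b : ℚ⟦X⟧} (hb : b ∈ GG k) (h : X ^ k ∣ a - b) : a ∈ GG k :=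
  mem_congr hb h

/-- integral series -/
abbrev mz : ℤ⟦X⟧ →+* ℚ⟦X⟧ := PowerSeries.map (Int.castRingHom ℚ)

/-- a multiple of every integral series is in the group -/
theorem exists_M (k : ℕ) : ∃ M : ℕ, 1 ≤ M ∧ ∀ U : ℤ⟦X⟧, M • mz U ∈ GG k := by
  choose D hD hDm using fun i : ℕ => mul_all k ((X : ℚ⟦X⟧) ^ i)
  refine ⟨∏ i ∈ range k, D i, Nat.one_le_iff_ne_zero.2
    (Finset.prod_ne_zero_iff.2 fun i _ => by have := hD i; omega), fun U => ?_⟩
  have h1 : ∀ i ∈ range k, (∏ i ∈ range k, D i) • (X : ℚ⟦X⟧) ^ i ∈ GG k := by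
    intro i hi
    rw [← Finset.prod_erase_mul _ _ hi, mul_nsmul']
    exact AddSubmonoid.nsmul_mem _ (hDm i) _
  have h2 : ∑ i ∈ range k, (coeff i U) • ((∏ i ∈ range k, D i) • (X : ℚ⟦X⟧) ^ i) ∈ GG k :=
    AddSubgroup.sum_mem _ fun i hi => AddSubgroup.zsmul_mem _ (h1 i hi) _
  refine congr_GG h2 ?_
  rw [X_pow_dvd_iff]
  intro m hm
  rw [map_sub, map_sum, sub_eq_zero]
  simp only [nsmul_eq_mul, zsmul_eq_mul]
  rw [Finset.sum_eq_single m]
  · rw [← map_intCast (C (R := ℚ)), coeff_C_mul, ← map_natCast (C (R := ℚ)), coeff_C_mul,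
      coeff_C_mul, coeff_X_pow, if_pos rfl, PowerSeries.coeff_map]
    simp only [eq_intCast]
    ring
  · intro i _ him
    rw [← map_intCast (C (R := ℚ)), coeff_C_mul, ← map_natCast (C (R := ℚ)), coeff_C_mul,
      coeff_X_pow, if_neg (Ne.symm him)]
    ring
  · intro h
    exact absurd (mem_range.2 hm) h

end

end Helper114NB
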